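import Pool.Agent.helper34.FJ3.Defs

set_option autoImplicit false
set_option linter.unusedVariables false

/-!
# FJ3, module A5a: elementary collapses keep simple connectedness
-/

namespace Pool.Agent.helper60.FJ3

open Pool.Agent.helper34.FJ2 Pool.Agent.helper34.FJ3

/-- remove every triangle which has an edge in `E` and every edge in `E` which lies in a
triangle -/
def collapse {V : Type} (X : Complex2 V) (E : V → V → Prop) (hE : ∀ a b, E a b → E b a) :
    Complex2 V where
  edge a b := X.edge a b ∧ ¬ (E a b ∧ ∃ c, X.tri a b c)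
  tri a b c := X.tri a b c ∧ ¬ E a b ∧ ¬ E b c ∧ ¬ E a c
  edge_symm := by
    rintro a b ⟨h1, h2⟩
    exact ⟨X.edge_symm _ _ h1, fun h3 => h2 ⟨hE _ _ h3.1, h3.2.imp fun c => X.tri_swap _ _ _⟩⟩
  edge_irrefl a h := X.edge_irrefl a h.1
  tri_rot := by
    rintro a b c ⟨h, h1, h2, h3⟩
    exact ⟨X.tri_rot _ _ _ h, h2, fun h' => h3 (hE _ _ h'), fun h' => h1 (hE _ _ h')⟩
  tri_swap := by
    rintro a b c ⟨h, h1, h2, h3⟩
    exact ⟨X.tri_swap _ _ _ h, fun h' => h1 (hE _ _ h'), h3, h2⟩
  tri_edge := by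
    rintro a b c ⟨h, h1, h2, h3⟩
    exact ⟨X.tri_edge _ _ _ h, fun h' => h1 h'.1⟩

section

variable {V : Type} (X : Complex2 V) (E : V → V → Prop)

open Classical in
/-- replace every step along a removed edge by the other two edges of its triangle -/
noncomputable def push : V → List V → List V
  | _, [] => []
  | a, b :: l => if h : E a b ∧ ∃ c, X.tri a b c then h.2.choose :: b :: push b l
      else b :: push b l

theorem push_pos {a b c : V} (l : List V)
    (h2 : ∀ a b c d, E a b → X.tri a b c → X.tri a b d → c = d) (h : E a b)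
    (hc : X.tri a b c) : push X E a (b :: l) = c :: b :: push X E b l := by
  have hh : E a b ∧ ∃ c, X.tri a b c := ⟨h, c, hc⟩
  rw [push, dif_pos hh, h2 _ _ _ _ h hh.2.choose_spec hc]

theorem push_neg {a b : V} (l : List V) (h : ¬ (E a b ∧ ∃ c, X.tri a b c)) :
    push X E a (b :: l) = b :: push X E b l := by
  rw [push, dif_neg h]

theorem endp_push (a : V) (l : List V) : endp a (push X E a l) = endp a l := by
  induction l generalizing a with
  | nil => rfl
  | cons b l ih =>
    by_cases h : E a b ∧ ∃ c, X.tri a b c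
    · rw [push, dif_pos h]
      simpa using ih b
    · rw [push_neg X E l h]
      simpa using ih b

variable (hE : ∀ a b, E a b → E b a)

theorem isPath_push (h1 : ∀ a b c, X.tri a b c → E a b → ¬ E a c) (a : V) (l : List V)
    (h : IsPath X a l) : IsPath (collapse X E hE) a (push X E a l) := by
  induction l generalizing a with
  | nil => trivial
  | cons b l ih =>
    by_cases hh : E a b ∧ ∃ c, X.tri a b c
    · rw [push, dif_pos hh]
      have ht := hh.2.choose_spec
      generalize hh.2.choose = c at ht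
      refine ⟨⟨X.tri_edge'' ht, fun h' => h1 _ _ _ ht hh.1 h'.1⟩,
        ⟨X.edge_symm _ _ (X.tri_edge' ht), fun h' => ?_⟩, ih b h.2⟩
      exact h1 b a c (X.tri_swap _ _ _ ht) (hE _ _ hh.1) (hE _ _ h'.1)
    · rw [push_neg X E l hh]
      exact ⟨⟨h.1, hh⟩, ih b h.2⟩

theorem push_eq (a : V) (l : List V) (h : IsPath (collapse X E hE) a l) : push X E a l = l := by
  induction l generalizing a with
  | nil => rfl
  | cons b l ih => rw [push_neg X E l h.1.2, ih b h.2]

theorem push_htpy (h1 : ∀ a b c, X.tri a b c → E a b → ¬ E a c)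
    (h2 : ∀ a b c d, E a b → X.tri a b c → X.tri a b d → c = d) {a : V} {l m : List V}
    (h : Htpy X a l m) : Htpy (collapse X E hE) a (push X E a l) (push X E a m) := by
  have e1 : ∀ {a b c : V}, X.tri a b c → E a b → (collapse X E hE).edge a c :=
    fun {a b c} ht he => ⟨X.tri_edge'' ht, fun h' => h1 _ _ _ ht he h'.1⟩
  have e2 : ∀ {a b c : V}, X.tri a b c → E a b → (collapse X E hE).edge c b := by
    intro a b c ht he
    exact Complex2.edge_symm _ _ _ (e1 (X.tri_swap _ _ _ ht) (hE _ _ he))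
  induction h with
  | refl => exact Htpy.refl _ _
  | symm _ _ _ _ ih => exact ih.symm
  | trans _ _ _ _ _ _ ih1 ih2 => exact ih1.trans _ _ _ _ ih2
  | cons a b l m _ ih =>
    by_cases hh : E a b ∧ ∃ c, X.tri a b c
    · obtain ⟨he, c, hc⟩ := hh
      rw [push_pos X E l h2 he hc, push_pos X E m h2 he hc]
      exact Htpy.cons _ _ _ _ (Htpy.cons _ _ _ _ ih)
    · rw [push_neg X E l hh, push_neg X E m hh]
      exact Htpy.cons _ _ _ _ ih
  | spur a b l hab =>
    by_cases hh : E a b ∧ ∃ c, X.tri a b c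
    · obtain ⟨he, c, hc⟩ := hh
      rw [push_pos X E _ h2 he hc, push_pos X E l h2 (hE _ _ he) (X.tri_swap _ _ _ hc)]
      refine Htpy.trans _ _ _ _ (Htpy.cons _ _ _ _ (Htpy.spur c b _ (e2 hc he))) ?_
      exact Htpy.spur a c _ (e1 hc he)
    · have hh' : ¬ (E b a ∧ ∃ c, X.tri b a c) := fun h' =>
        hh ⟨hE _ _ h'.1, h'.2.imp fun c => X.tri_swap _ _ _⟩
      rw [push_neg X E _ hh, push_neg X E _ hh']
      exact Htpy.spur a b _ ⟨hab, hh⟩
  | tri a b c l ht =>
    by_cases hab : E a b
    · have hac : ¬ E a c := h1 _ _ _ ht hab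
      have hbc : ¬ E b c := h1 _ _ _ (X.tri_swap _ _ _ ht) (hE _ _ hab)
      rw [push_pos X E _ h2 hab ht, push_neg X E _ (fun h' => hbc h'.1),
        push_neg X E _ (fun h' => hac h'.1)]
      exact Htpy.cons _ _ _ _ (Htpy.spur c b _ (e2 ht hab))
    · by_cases hbc : E b c
      · have hba : ¬ E b a := h1 _ _ _ (X.tri_rot _ _ _ ht) hbc
        have ht' : X.tri c b a := X.tri_swap _ _ _ (X.tri_rot _ _ _ ht)
        have hca : ¬ E c a := h1 _ _ _ ht' (hE _ _ hbc)
        rw [push_neg X E _ (fun h' => hab h'.1), push_pos X E _ h2 hbc (X.tri_rot _ _ _ ht),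
          push_neg X E _ (fun h' => hca (hE _ _ h'.1))]
        exact Htpy.spur a b _ ⟨X.tri_edge _ _ _ ht, fun h' => hab h'.1⟩
      · by_cases hac : E a c
        · rw [push_neg X E _ (fun h' => hab h'.1), push_neg X E _ (fun h' => hbc h'.1),
            push_pos X E _ h2 hac (X.tri_swap' ht)]
          exact Htpy.refl _ _
        · rw [push_neg X E _ (fun h' => hab h'.1), push_neg X E _ (fun h' => hbc h'.1),
            push_neg X E _ (fun h' => hac h'.1)]
          exact Htpy.tri a b c _ ⟨ht, hab, hbc, hac⟩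

end

theorem collapse_sc {V : Type} (X : Complex2 V) (hs : SimplyConnected X) (E : V → V → Prop)
    (hE : ∀ a b, E a b → E b a) (h1 : ∀ a b c, X.tri a b c → E a b → ¬ E a c)
    (h2 : ∀ a b c d, E a b → X.tri a b c → X.tri a b d → c = d) :
    SimplyConnected (collapse X E hE) := by
  refine ⟨hs.1, ?_, ?_⟩
  · intro a b
    obtain ⟨l, hl, hb⟩ := hs.2.1 a b
    exact ⟨push X E a l, isPath_push X E hE h1 a l hl, by rw [endp_push, hb]⟩
  · intro a l hl ha
    have hle : collapse X E hE ≤ X := ⟨fun _ _ h => h.1, fun _ _ _ h => h.1⟩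
    have h3 := push_htpy X E hE h1 h2 (hs.2.2 a l (hl.mono hle) ha)
    rw [push_eq X E hE a l hl] at h3
    exact h3

end Pool.Agent.helper60.FJ3
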