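import Pool.Agent.helper26.FJ3.Quo

set_option autoImplicit false
set_option linter.unusedVariables false

/-!
# FJ3, module A3b: the quotient group acts freely on the quotient complex
-/

namespace Pool.Agent.helper60.FJ3

open Pool.Agent.helper34.FJ2 Pool.Agent.helper34.FJ3

section

variable {H V K : Type} [Group H] [MulAction H V] (N : Subgroup H)

theorem qmk_eq {G W : Type} [Group G] [MulAction G W] {v w : W} :
    qmk G v = qmk G w ↔ ∃ n : G, n • w = v := by
  unfold qmk
  rw [Quotient.eq (r := MulAction.orbitRel G W)]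
  exact Iff.rfl

theorem qmk_ind {G W : Type} [Group G] [MulAction G W] {p : Quo G W → Prop}
    (h : ∀ v, p (qmk G v)) (x : Quo G W) : p x :=
  Quotient.ind (motive := p) h x

variable [hNn : N.Normal]

/-- the action of one element of `H` on the orbit space -/
def actH (h : H) : Quo N V → Quo N V :=
  Quotient.lift (fun v : V => qmk N (h • v)) (by
    rintro v w ⟨n, hn⟩
    refine qmk_eq.2 ⟨⟨h * n * h⁻¹, hNn.conj_mem _ n.2 _⟩, ?_⟩
    change (h * (n : H) * h⁻¹) • h • w = h • v
    rw [← hn]
    change _ = h • (n : H) • w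
    simp only [smul_smul]
    congr 1
    group)

theorem actH_qmk (h : H) (v : V) : actH (V := V) N h (qmk N v) = qmk N (h • v) := rfl

/-- the action of the quotient group on the orbit space -/
def quoSmul (x : H ⧸ N) : Quo N V → Quo N V :=
  Quotient.liftOn' x (fun h => actH N h) (by
    intro h h' hh
    rw [QuotientGroup.leftRel_apply] at hh
    funext q
    induction q using qmk_ind with
    | h v =>
      rw [actH_qmk, actH_qmk]
      refine qmk_eq.2 ⟨⟨h * (h⁻¹ * h')⁻¹ * h⁻¹, hNn.conj_mem _ (N.inv_mem hh) _⟩, ?_⟩
      change (h * (h⁻¹ * h')⁻¹ * h⁻¹) • h' • v = h • v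
      rw [smul_smul]
      congr 1
      group)

/-- the action of the quotient group on the orbit space -/
@[implicit_reducible]
def quoAct : MulAction (H ⧸ N) (Quo N V) where
  smul := quoSmul N
  one_smul q := by
    induction q using qmk_ind with
    | h v =>
      change qmk N ((1 : H) • v) = qmk N v
      rw [one_smul]
  mul_smul x y q := by
    induction q using qmk_ind with
    | h v =>
      induction x using QuotientGroup.induction_on with
      | H g =>
        induction y using QuotientGroup.induction_on with
        | H k =>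
          change qmk N ((g * k) • v) = qmk N (g • k • v)
          rw [mul_smul]

end

theorem quotient_P {P : ∀ (G : Type) [Group G], Prop}
    (hP : Closed P) {H V K : Type} [Group H] [MulAction H V] (X : Complex2 V)
    (len : V → V → ℝ) (τ : V → K) (hs : SimplyConnected X) (hn : NPC X len) (hτ : Typed X τ)
    (ha : Acts H X len τ) (N : Subgroup H) [N.Normal]
    (hN : N = Subgroup.closure {g : H | ∃ v : V, g • v = v}) (hr : Rot N X len) : P (H ⧸ N) := by
  let _ : MulAction (H ⧸ N) (Quo N V) := quoAct N
  have haN : Acts N X len τ :=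
    ⟨fun g => ha.edge g, fun g => ha.tri g, fun g => ha.len g, fun g => ha.typ g⟩
  have hsm : ∀ (g : H) (v : V), (QuotientGroup.mk g : H ⧸ N) • qmk N v = qmk N (g • v) :=
    fun g v => rfl
  have hmem : ∀ g : H, (∃ v : V, g • v = v) → g ∈ N := by
    intro g hg
    rw [hN]
    exact Subgroup.subset_closure hg
  have hcl : Subgroup.closure {g : N | ∃ v : V, g • v = v} = ⊤ := by
    apply Subgroup.map_injective N.subtype_injective
    rw [MonoidHom.map_closure, ← MonoidHom.range_eq_map, Subgroup.range_subtype]
    conv_rhs => rw [hN]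
    congr 1
    ext g
    constructor
    · rintro ⟨g', ⟨v, hv⟩, rfl⟩
      exact ⟨v, hv⟩
    · rintro ⟨v, hv⟩
      have hg : g ∈ N := by
        rw [hN]
        exact Subgroup.subset_closure ⟨v, hv⟩
      exact ⟨⟨g, hg⟩, ⟨v, hv⟩, rfl⟩
  refine closed_proper (G := H ⧸ N) (V := Quo N V) hP.closed2 (quo N X) (quoLen N X len)
    (Pool.Agent.helper26.FJ3.quo_sc X len τ hs hτ haN hcl)
    (Pool.Agent.helper26.FJ3.quo_npc X len τ hn hτ haN hr) ?_
  refine ⟨?_, ?_, ?_, ?_⟩
  · rintro x _ _ ⟨hne, a, b, hab, rfl, rfl⟩
    induction x using QuotientGroup.induction_on with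
    | H g =>
      refine ⟨?_, g • a, g • b, ha.edge g a b hab, rfl, rfl⟩
      intro h
      exact hne (smul_left_cancel _ h)
  · rintro x _ _ _ ⟨⟨h1, h2, h3⟩, a, b, c, habc, rfl, rfl, rfl⟩
    induction x using QuotientGroup.induction_on with
    | H g =>
      exact ⟨⟨fun h => h1 (smul_left_cancel _ h), fun h => h2 (smul_left_cancel _ h),
        fun h => h3 (smul_left_cancel _ h)⟩, g • a, g • b, g • c, ha.tri g a b c habc,
        rfl, rfl, rfl⟩
  · rintro x _ _ ⟨hne, a, b, hab, rfl, rfl⟩
    induction x using QuotientGroup.induction_on with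
    | H g =>
      rw [hsm, hsm, Pool.Agent.helper26.FJ3.quoLen_eq X len τ hτ haN _ _ (ha.edge g a b hab),
        Pool.Agent.helper26.FJ3.quoLen_eq X len τ hτ haN _ _ hab, ha.len g a b hab]
  · intro q
    induction q using qmk_ind with
    | h v =>
      refine (Set.finite_singleton (1 : H ⧸ N)).subset ?_
      intro x hx
      induction x using QuotientGroup.induction_on with
      | H g =>
        have hx' : qmk N (g • v) = qmk N v := hx
        obtain ⟨n, hn'⟩ := qmk_eq.1 hx'
        have h1 : (g⁻¹ * (n : H)) • v = v := by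
          rw [mul_smul]
          change g⁻¹ • (n • v) = v
          rw [hn', inv_smul_smul]
        have h2 : g⁻¹ * (n : H) ∈ N := by
          exact hmem _ ⟨v, h1⟩
        have h3 : g ∈ N := by
          have h4 := N.mul_mem n.2 (N.inv_mem h2)
          have h5 : (n : H) * (g⁻¹ * (n : H))⁻¹ = g := by group
          rwa [h5] at h4
        exact (QuotientGroup.eq_one_iff g).2 h3

end Pool.Agent.helper60.FJ3
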