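import Pool.Agent.helper60.FJ3.Star
import Pool.Agent.helper22.FJ3.Cone
import Pool.Agent.helper26.FJ3.Link
import Pool.Agent.helper68.FJ3.Bary
import Pool.Agent.helper84.FJ3.Polar

set_option autoImplicit false
set_option linter.unusedVariables false

/-!
# FJ3, module B4d, part 2: the local geometry
-/

namespace Pool.Agent.helper60.FJ3

open Pool.Agent.helper34.FJ2 Pool.Agent.helper34.FJ3
open scoped BigOperators

/-! ### cones -/

section cones

variable {Θ : Type} {a : Θ → Θ → ℝ}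

theorem cdist_nonneg (a : Θ → Θ → ℝ) (p q : ℝ × Θ) : 0 ≤ cdist a p q := Real.sqrt_nonneg _

theorem cdist_symm (ha : AngleLike a) (p q : ℝ × Θ) : cdist a p q = cdist a q p := by
  unfold cdist
  rw [ha.symm p.2 q.2]
  congr 1
  ring

theorem cdist_zero_left (p q : ℝ × Θ) (hp : p.1 = 0) (hq : 0 ≤ q.1) : cdist a p q = q.1 := by
  unfold cdist
  rw [hp]
  have : (0 : ℝ) ^ 2 + q.1 ^ 2 - 2 * 0 * q.1 * Real.cos (a p.2 q.2) = q.1 ^ 2 := by ring
  rw [this, Real.sqrt_sq hq]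

theorem cdist_zero_right (p q : ℝ × Θ) (hq : q.1 = 0) (hp : 0 ≤ p.1) : cdist a p q = p.1 := by
  unfold cdist
  rw [hq]
  have : p.1 ^ 2 + (0 : ℝ) ^ 2 - 2 * p.1 * 0 * Real.cos (a p.2 q.2) = p.1 ^ 2 := by ring
  rw [this, Real.sqrt_sq hp]

theorem cdist_pi (p q : ℝ × Θ) (h : a p.2 q.2 = Real.pi) (hp : 0 ≤ p.1) (hq : 0 ≤ q.1) :
    cdist a p q = p.1 + q.1 := by
  unfold cdist
  rw [h, Real.cos_pi]
  have : p.1 ^ 2 + q.1 ^ 2 - 2 * p.1 * q.1 * -1 = (p.1 + q.1) ^ 2 := by ring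
  rw [this, Real.sqrt_sq (by linarith)]

theorem cdist_le_add (p q : ℝ × Θ) (hp : 0 ≤ p.1) (hq : 0 ≤ q.1) :
    cdist a p q ≤ p.1 + q.1 := by
  unfold cdist
  rw [show p.1 + q.1 = Real.sqrt ((p.1 + q.1) ^ 2) from (Real.sqrt_sq (by linarith)).symm]
  apply Real.sqrt_le_sqrt
  have h1 := Real.neg_one_le_cos (a p.2 q.2)
  have h2 : 0 ≤ p.1 * q.1 := mul_nonneg hp hq
  nlinarith

theorem angle_congr (ha : AngleLike a) {x x' y y' : Θ} (h1 : a x x' = 0) (h2 : a y y' = 0) :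
    a x y = a x' y' := by
  have e1 := ha.tri x x' y
  have e2 := ha.tri x' y' y
  have e3 := ha.tri x' x y'
  have e4 := ha.tri x y y'
  rw [ha.symm y' y] at e2
  rw [ha.symm x' x] at e3
  apply le_antisymm <;> linarith

theorem cdist_congr (ha : AngleLike a) {p p' q q' : ℝ × Θ} (h1 : p.1 = p'.1)
    (h2 : a p.2 p'.2 = 0) (h3 : q.1 = q'.1) (h4 : a q.2 q'.2 = 0) :
    cdist a p q = cdist a p' q' := by
  unfold cdist
  rw [h1, h3, angle_congr ha h2 h4]

theorem cdist_self (ha : AngleLike a) (p : ℝ × Θ) : cdist a p p = 0 := by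
  unfold cdist
  rw [ha.refl, Real.cos_zero]
  have : p.1 ^ 2 + p.1 ^ 2 - 2 * p.1 * p.1 * 1 = 0 := by ring
  rw [this, Real.sqrt_zero]

end cones

/-! ### the data -/

/-- everything we need to know about the chain metric and the polar coordinates -/
structure Dat {V : Type} (Y : Complex2 V) (len : V → V → ℝ) (Γ : V → MGraph V) where
  d : YPt Y → YPt Y → ℝ
  d_nonneg : ∀ x y, 0 ≤ d x y
  d_self : ∀ x, d x x = 0
  d_eq : ∀ x y, d x y = 0 → x = y
  d_symm : ∀ x y, d x y = d y x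
  d_tri : ∀ x y z, d x z ≤ d x y + d y z
  c : ℝ
  hc : 0 < c
  low : ∀ x y, c * YPt.l1 x y ≤ d x y
  up : ∀ x y, x.Comm y → d x y ≤ YPt.eD len x y
  ch : ∀ x y r, d x y < r → ∃ (n : ℕ) (p : ℕ → YPt Y), p 0 = x ∧ p n = y ∧
        (∀ i, i < n → (p i).Comm (p (i + 1))) ∧
        ∑ i ∈ Finset.range n, YPt.eD len (p i) (p (i + 1)) < r
  C : ℝ
  hC : 0 < C
  gb : ∀ (v : V) (X Z : Sec Y v), X.Comm Z → |X.sum - Z.sum| ≤ C * Sec.gD len X Z
  hadj : ∀ v b c, (Γ v).adj b c → Y.tri v b c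
  a : ∀ v, (Γ v).Pt → (Γ v).Pt → ℝ
  ha : ∀ v, IsLinkMetric (Γ v) (a v)
  pol : ∀ v, Sec Y v → ℝ × (Γ v).Pt
  pnn : ∀ v X, 0 ≤ (pol v X).1
  pz : ∀ v X, (pol v X).1 = 0 ↔ ∀ b, X.x b = 0
  pc : ∀ v (X Z : Sec Y v), X.Comm Z → cdist (a v) (pol v X) (pol v Z) = Sec.gD len X Z
  pv : ∀ v X b, (∀ d, X.x d ≠ 0 ↔ d = b) → a v (pol v X).2 ((Γ v).vtx b) = 0
  pe : ∀ v X, (∃ b, X.x b ≠ 0) → Y.edge v (pol v X).2.b
  pr : ∀ (v : V) (r : ℝ) (θ : (Γ v).Pt), 0 < r → Y.edge v θ.b →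
        ∃ X : Sec Y v, (pol v X).1 = r ∧ a v (pol v X).2 θ = 0 ∧
          (∀ d, X.x d ≠ 0 → d = θ.b ∨ d = θ.c) ∧ (θ.s = 0 → ∀ d, X.x d ≠ 0 → d = θ.b)
  ps : ∀ v (X : Sec Y v), (∃ b, X.x b ≠ 0) →
        (∀ d, X.x d ≠ 0 → d = (pol v X).2.b ∨ d = (pol v X).2.c) ∧
        ((pol v X).2.s = 0 → ∀ d, X.x d ≠ 0 → d = (pol v X).2.b)

namespace Dat

variable {V : Type} {Y : Complex2 V} {len : V → V → ℝ} {Γ : V → MGraph V} (D : Dat Y len Γ)

/-- the cone distance -/
noncomputable def δ (v : V) (X Z : Sec Y v) : ℝ := cdist (D.a v) (D.pol v X) (D.pol v Z)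

theorem al (v : V) : AngleLike (D.a v) := (D.ha v).angleLike

theorem δ_nonneg (v : V) (X Z : Sec Y v) : 0 ≤ D.δ v X Z := cdist_nonneg _ _ _

theorem δ_self (v : V) (X : Sec Y v) : D.δ v X X = 0 := cdist_self (D.al v) _

theorem δ_symm (v : V) (X Z : Sec Y v) : D.δ v X Z = D.δ v Z X := cdist_symm (D.al v) _ _

theorem δ_tri (v : V) (X Z W : Sec Y v) : D.δ v X W ≤ D.δ v X Z + D.δ v Z W :=
  Pool.Agent.helper22.FJ3.cone_tri (D.a v) (D.al v) _ _ _ (D.pnn v X) (D.pnn v Z) (D.pnn v W)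

theorem pol_zsec (v : V) : (D.pol v (zsec Y v)).1 = 0 := (D.pz v _).2 fun b => rfl

theorem δ_zsec (v : V) (X : Sec Y v) : D.δ v X (zsec Y v) = (D.pol v X).1 :=
  cdist_zero_right _ _ (D.pol_zsec v) (D.pnn v X)

theorem δ_zsec' (v : V) (X : Sec Y v) : D.δ v (zsec Y v) X = (D.pol v X).1 :=
  cdist_zero_left _ _ (D.pol_zsec v) (D.pnn v X)

theorem coord (x y : YPt Y) (v : V) : |x.x v - y.x v| ≤ D.d x y / D.c := by
  rw [le_div_iff₀ D.hc]
  have h1 := D.low x y
  have h2 := mul_le_mul_of_nonneg_left (coord_le x y v) D.hc.le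
  linarith

/-- adjacent vectors: in a common sector or equal -/
def Adj (v : V) (X Z : Sec Y v) : Prop := X.Comm Z ∨ X = Z

theorem adj_δ {v : V} {X Z : Sec Y v} (h : Adj v X Z) : D.δ v X Z = Sec.gD len X Z := by
  rcases h with h | rfl
  · exact D.pc v X Z h
  · rw [D.δ_self, gD_self]

theorem gD_nonneg {v : V} (X Z : Sec Y v) : 0 ≤ Sec.gD len X Z := Real.sqrt_nonneg _

theorem adj_sum {v : V} {X Z : Sec Y v} (h : Adj v X Z) :
    |X.sum - Z.sum| ≤ D.C * Sec.gD len X Z := by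
  rcases h with h | rfl
  · exact D.gb v X Z h
  · rw [sub_self, abs_zero]
    exact mul_nonneg D.hC.le (gD_nonneg _ _)

theorem adj_d {v : V} {X Z : Sec Y v} (h : Adj v X Z) (hX : X.sum < 1) (hZ : Z.sum < 1) :
    D.d (pt X) (pt Z) ≤ Sec.gD len X Z := by
  rcases h with h | rfl
  · rw [← eD_pt len hX hZ]
    exact D.up _ _ (comm_pt h hX hZ)
  · rw [D.d_self]
    exact gD_nonneg _ _

/-- chains of vectors -/
theorem chain_sec {v : V} (n : ℕ) (Z : ℕ → Sec Y v) (hZ : ∀ i, i < n → Adj v (Z i) (Z (i + 1)))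
    (S : ℝ) (hS : ∑ i ∈ Finset.range n, Sec.gD len (Z i) (Z (i + 1)) ≤ S)
    (h0 : (Z 0).sum + D.C * S < 1) :
    (Z n).sum < 1 ∧ D.d (pt (Z 0)) (pt (Z n)) ≤ S := by
  have key : ∀ m, m ≤ n → (Z m).sum ≤ (Z 0).sum +
      D.C * ∑ i ∈ Finset.range m, Sec.gD len (Z i) (Z (i + 1)) ∧
      D.d (pt (Z 0)) (pt (Z m)) ≤ ∑ i ∈ Finset.range m, Sec.gD len (Z i) (Z (i + 1)) := by
    have hpart : ∀ m, m ≤ n → ∑ i ∈ Finset.range m, Sec.gD len (Z i) (Z (i + 1)) ≤ S := by
      intro m hm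
      refine le_trans ?_ hS
      exact Finset.sum_le_sum_of_subset_of_nonneg (Finset.range_mono hm)
        fun i _ _ => gD_nonneg _ _
    have hsum : ∀ m, m ≤ n → (Z m).sum ≤ (Z 0).sum +
        D.C * ∑ i ∈ Finset.range m, Sec.gD len (Z i) (Z (i + 1)) → (Z m).sum < 1 := by
      intro m hm h
      have := mul_le_mul_of_nonneg_left (hpart m hm) D.hC.le
      linarith
    intro m
    induction m with
    | zero =>
      intro _
      simp [D.d_self]
    | succ m ih =>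
      intro hm
      obtain ⟨h1, h2⟩ := ih (by omega)
      have h3 := D.adj_sum (hZ m (by omega))
      have h4 := (abs_le.1 h3).1
      have h5 : (Z (m + 1)).sum ≤ (Z 0).sum +
          D.C * ∑ i ∈ Finset.range (m + 1), Sec.gD len (Z i) (Z (i + 1)) := by
        rw [Finset.sum_range_succ, mul_add]
        linarith
      refine ⟨h5, ?_⟩
      rw [Finset.sum_range_succ]
      have h6 := D.adj_d (hZ m (by omega)) (hsum m (by omega) h1) (hsum (m + 1) hm h5)
      have h7 := D.d_tri (pt (Z 0)) (pt (Z m)) (pt (Z (m + 1)))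
      linarith
  obtain ⟨h1, h2⟩ := key n le_rfl
  refine ⟨?_, h2.trans hS⟩
  have := mul_le_mul_of_nonneg_left hS D.hC.le
  linarith

/-- through the apex -/
theorem exists_chain_apex (v : V) (X Z : Sec Y v) :
    ∃ (n : ℕ) (W : ℕ → Sec Y v), W 0 = X ∧ W n = Z ∧ (∀ i, i < n → Adj v (W i) (W (i + 1))) ∧
      ∑ i ∈ Finset.range n, Sec.gD len (W i) (W (i + 1)) = (D.pol v X).1 + (D.pol v Z).1 := by
  have hX : Adj v X (zsec Y v) := comm_zsec X
  have hZ : Adj v (zsec Y v) Z := by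
    rcases comm_zsec Z with h | h
    · left
      rcases h with ⟨b, hb, h⟩ | ⟨b, c, hb, h⟩
      · exact Or.inl ⟨b, hb, fun d hd => h d hd.symm⟩
      · exact Or.inr ⟨b, c, hb, fun d hd => h d hd.symm⟩
    · exact Or.inr h.symm
  refine ⟨2, fun i => if i = 0 then X else if i = 1 then zsec Y v else Z, by simp, by simp,
    ?_, ?_⟩
  · intro i hi
    rcases (by omega : i = 0 ∨ i = 1) with rfl | rfl
    · simpa using hX
    · simpa using hZ
  · rw [Finset.sum_range_succ, Finset.sum_range_one]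
    simp only [zero_add, if_true, one_ne_zero, if_false]
    have h1 := D.adj_δ hX
    have h2 := D.adj_δ hZ
    rw [D.δ_zsec] at h1
    rw [D.δ_zsec'] at h2
    rw [h1, h2]
    norm_num

include D in
/-- the first vertex of a direction in the component of an edge at `v` -/
theorem edge_chain (v : V) (n : ℕ) (p : ℕ → (Γ v).Pt) (h0 : Y.edge v (p 0).b)
    (h : ∀ i, i < n → (Γ v).Same (p i) (p (i + 1)) ∨
      ((p i).b = (p (i + 1)).b ∧ (p i).c = (p (i + 1)).c)) (i : ℕ) (hi : i ≤ n) :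
    Y.edge v (p i).b := by
  induction i with
  | zero => exact h0
  | succ i ih =>
    have h1 := ih (by omega)
    rcases h i (by omega) with (⟨h2, _, _⟩ | ⟨h2, h3, h4, _⟩) | ⟨h2, _⟩
    · rwa [← h2]
    · rw [← h4]
      exact Y.tri_edge'' (D.hadj _ _ _ h2)
    · rwa [← h2]

theorem edge_of_lt (v : V) (x y : (Γ v).Pt) (h : D.a v x y < Real.pi) (hx : Y.edge v x.b) :
    Y.edge v y.b := by
  obtain ⟨n, p, h0, hn, h1, _⟩ := (D.ha v).chain x y h
  rw [← hn]
  exact D.edge_chain v n p (by rwa [h0]) h1 n le_rfl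

/-- the main chain -/
theorem exists_chain (v : V) (X Z : Sec Y v) :
    ∃ (n : ℕ) (W : ℕ → Sec Y v), W 0 = X ∧ W n = Z ∧ (∀ i, i < n → Adj v (W i) (W (i + 1))) ∧
      ∑ i ∈ Finset.range n, Sec.gD len (W i) (W (i + 1)) = D.δ v X Z := by
  by_cases hX0 : (D.pol v X).1 = 0
  · obtain ⟨n, W, h0, hn, h1, h2⟩ := D.exists_chain_apex v X Z
    refine ⟨n, W, h0, hn, h1, ?_⟩
    rw [h2, δ, cdist_zero_left _ _ hX0 (D.pnn v Z), hX0, zero_add]
  by_cases hZ0 : (D.pol v Z).1 = 0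
  · obtain ⟨n, W, h0, hn, h1, h2⟩ := D.exists_chain_apex v X Z
    refine ⟨n, W, h0, hn, h1, ?_⟩
    rw [h2, δ, cdist_zero_right _ _ hZ0 (D.pnn v X), hZ0, add_zero]
  by_cases hlt : D.a v (D.pol v X).2 (D.pol v Z).2 < Real.pi
  swap
  · have hpi : D.a v (D.pol v X).2 (D.pol v Z).2 = Real.pi :=
      le_antisymm ((D.ha v).le_pi _ _) (not_lt.1 hlt)
    obtain ⟨n, W, h0, hn, h1, h2⟩ := D.exists_chain_apex v X Z
    refine ⟨n, W, h0, hn, h1, ?_⟩
    rw [h2, δ, cdist_pi _ _ hpi (D.pnn v X) (D.pnn v Z)]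
  have hXp : 0 < (D.pol v X).1 := lt_of_le_of_ne (D.pnn v X) (Ne.symm hX0)
  have hZp : 0 < (D.pol v Z).1 := lt_of_le_of_ne (D.pnn v Z) (Ne.symm hZ0)
  have hXne : ∃ b, X.x b ≠ 0 := by
    by_contra hcon
    push Not at hcon
    exact hX0 ((D.pz v X).2 hcon)
  have hZne : ∃ b, Z.x b ≠ 0 := by
    by_contra hcon
    push Not at hcon
    exact hZ0 ((D.pz v Z).2 hcon)
  -- a chain of directions with at least one step
  obtain ⟨n, p, hn1, hp0, hpn, hstep, hsum⟩ : ∃ (n : ℕ) (p : ℕ → (Γ v).Pt), 1 ≤ n ∧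
      p 0 = (D.pol v X).2 ∧ p n = (D.pol v Z).2 ∧
      (∀ i, i < n → (Γ v).Same (p i) (p (i + 1)) ∨
        ((p i).b = (p (i + 1)).b ∧ (p i).c = (p (i + 1)).c)) ∧
      ∑ i ∈ Finset.range n, D.a v (p i) (p (i + 1)) =
        D.a v (D.pol v X).2 (D.pol v Z).2 := by
    obtain ⟨n, p, h0, hn, h1, h2⟩ := (D.ha v).chain _ _ hlt
    rcases Nat.eq_zero_or_pos n with rfl | hpos
    · refine ⟨1, fun _ => p 0, le_rfl, h0, hn, fun i _ => Or.inr ⟨rfl, rfl⟩, ?_⟩
      rw [Finset.sum_range_one, (D.ha v).refl, ← h2, Finset.sum_range_zero]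
    · exact ⟨n, p, hpos, h0, hn, h1, h2⟩
  obtain ⟨r, hr0, hrn, hrpos, hrsum⟩ :=
    Pool.Agent.helper22.FJ3.cone_chain (D.a v) (D.al v) (D.pol v X) (D.pol v Z) hXp
    hZp hlt n p hp0 hpn hsum
  have hedge := D.edge_chain v n p (by rw [hp0]; exact D.pe v X hXne) hstep
  have hW : ∀ i, ∃ W : Sec Y v, (i = 0 → W = X) ∧ (i = n → W = Z) ∧ (i ≤ n →
      (D.pol v W).1 = r i ∧ D.a v (D.pol v W).2 (p i) = 0 ∧
      (∀ d, W.x d ≠ 0 → d = (p i).b ∨ d = (p i).c) ∧
      ((p i).s = 0 → ∀ d, W.x d ≠ 0 → d = (p i).b)) := by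
    intro i
    by_cases hi0 : i = 0
    · subst hi0
      refine ⟨X, fun _ => rfl, fun h => by omega, fun _ => ?_⟩
      rw [hr0, hp0]
      exact ⟨rfl, (D.ha v).refl _, D.ps v X hXne⟩
    by_cases hin : i = n
    · subst hin
      refine ⟨Z, fun h => absurd h hi0, fun _ => rfl, fun _ => ?_⟩
      rw [hrn hn1, hpn]
      exact ⟨rfl, (D.ha v).refl _, D.ps v Z hZne⟩
    by_cases hle : i ≤ n
    · obtain ⟨W, h1, h2, h3, h4⟩ := D.pr v (r i) (p i) (hrpos i hle) (hedge i hle)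
      exact ⟨W, fun h => absurd h hi0, fun h => absurd h hin, fun _ => ⟨h1, h2, h3, h4⟩⟩
    · exact ⟨X, fun _ => rfl, fun h => absurd h hin, fun h => absurd h hle⟩
  choose W hWX hWZ hWp using hW
  have hadj : ∀ i, i < n → Adj v (W i) (W (i + 1)) := by
    intro i hi
    obtain ⟨_, _, h3, h4⟩ := hWp i hi.le
    obtain ⟨_, _, h3', h4'⟩ := hWp (i + 1) hi
    left
    rcases hstep i hi with (⟨h5, h6, h7⟩ | ⟨h5, h6, h7, _⟩) | ⟨h5, h6⟩
    · left
      refine ⟨(p i).b, hedge i hi.le, ?_⟩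
      rintro d (hd | hd)
      · exact h4 h6 d hd
      · rw [h5]
        exact h4' h7 d hd
    · right
      refine ⟨(p i).b, (p i).c, D.hadj _ _ _ h5, ?_⟩
      rintro d (hd | hd)
      · exact h3 d hd
      · rw [h6, h7]
        exact (h3' d hd).symm
    · rcases (p i).h with ⟨h7, _⟩ | ⟨h7, _⟩
      · right
        refine ⟨(p i).b, (p i).c, D.hadj _ _ _ h7, ?_⟩
        rintro d (hd | hd)
        · exact h3 d hd
        · rw [h5, h6]
          exact h3' d hd
      · left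
        refine ⟨(p i).b, hedge i hi.le, ?_⟩
        rintro d (hd | hd)
        · rcases h3 d hd with h8 | h8
          · exact h8
          · rw [h7]
            exact h8
        · rcases h3' d hd with h8 | h8
          · rw [h5]
            exact h8
          · rw [h7, h6]
            exact h8
  refine ⟨n, W, hWX 0 rfl, hWZ n rfl, hadj, ?_⟩
  rw [δ, ← hrsum hn1]
  apply Finset.sum_congr rfl
  intro i hi
  have hi' : i < n := Finset.mem_range.1 hi
  obtain ⟨h1, h2, _, _⟩ := hWp i hi'.le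
  obtain ⟨h1', h2', _, _⟩ := hWp (i + 1) hi'
  rw [← D.adj_δ (hadj i hi'), δ]
  exact cdist_congr (D.al v) h1 h2 h1' h2'

/-- (ii) -/
theorem upper (v : V) (X Z : Sec Y v) (h : X.sum + D.C * D.δ v X Z < 1) :
    Z.sum < 1 ∧ D.d (pt X) (pt Z) ≤ D.δ v X Z := by
  obtain ⟨n, W, h0, hn, h1, h2⟩ := D.exists_chain v X Z
  subst h0
  subst hn
  exact D.chain_sec n W h1 _ h2.le h

/-- (i) -/
theorem lower (v : V) (x y : YPt Y) (hx : 1 / 4 ≤ x.x v) (h : D.d x y < D.c / 4) :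
    0 < y.x v ∧ D.δ v (sec v x) (sec v y) ≤ D.d x y := by
  have hx0 : 0 < x.x v := by linarith
  have hpos : ∀ z, D.d x z < D.c / 4 → 0 < z.x v := by
    intro z hz
    have h1 := (abs_le.1 (D.coord x z v)).2
    have h2 : D.d x z / D.c < 1 / 4 := by
      rw [div_lt_iff₀ D.hc]
      linarith
    linarith
  refine ⟨hpos y h, ?_⟩
  apply le_of_forall_gt_imp_ge_of_dense
  intro r hr
  -- we may assume r < c / 4
  have key : ∀ r, D.d x y < r → r ≤ D.c / 4 → D.δ v (sec v x) (sec v y) ≤ r := by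
    intro r hr hr'
    obtain ⟨n, p, h0, hn, h1, h2⟩ := D.ch x y r hr
    have hnn : ∀ i, 0 ≤ YPt.eD len (p i) (p (i + 1)) := fun i => Real.sqrt_nonneg _
    have hpart : ∀ m, m ≤ n → ∑ i ∈ Finset.range m, YPt.eD len (p i) (p (i + 1)) < r := by
      intro m hm
      refine lt_of_le_of_lt ?_ h2
      exact Finset.sum_le_sum_of_subset_of_nonneg (Finset.range_mono hm) fun i _ _ => hnn i
    have hd : ∀ m, m ≤ n → D.d x (p m) ≤ ∑ i ∈ Finset.range m, YPt.eD len (p i) (p (i + 1)) := by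
      intro m
      induction m with
      | zero =>
        intro _
        rw [h0, D.d_self, Finset.sum_range_zero]
      | succ m ih =>
        intro hm
        rw [Finset.sum_range_succ]
        have h3 := ih (by omega)
        have h4 := D.d_tri x (p m) (p (m + 1))
        have h5 := D.up _ _ (h1 m (by omega))
        linarith
    have hp : ∀ m, m ≤ n → 0 < (p m).x v := by
      intro m hm
      apply hpos
      have := hd m hm
      have := hpart m hm
      linarith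
    have hδ : ∀ m, m ≤ n → D.δ v (sec v x) (sec v (p m)) ≤
        ∑ i ∈ Finset.range m, YPt.eD len (p i) (p (i + 1)) := by
      intro m
      induction m with
      | zero =>
        intro _
        rw [h0, D.δ_self, Finset.sum_range_zero]
      | succ m ih =>
        intro hm
        rw [Finset.sum_range_succ]
        have h3 := ih (by omega)
        have h4 := D.δ_tri v (sec v x) (sec v (p m)) (sec v (p (m + 1)))
        have h5 : D.δ v (sec v (p m)) (sec v (p (m + 1))) =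
            YPt.eD len (p m) (p (m + 1)) := by
          rw [eD_sec len (hp m (by omega)) (hp (m + 1) hm)]
          exact D.adj_δ (comm_sec (h1 m (by omega)) (hp m (by omega)) (hp (m + 1) hm))
        linarith
    have := hδ n le_rfl
    rw [hn] at this
    have := hpart n le_rfl
    linarith
  rcases le_total r (D.c / 4) with h1 | h1
  · exact key r hr h1
  · exact (key (D.c / 4) h le_rfl).trans h1

/-- the scale -/
noncomputable def η : ℝ := min (D.c / 4) (1 / (8 * D.C))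

theorem η_pos : 0 < D.η := lt_min (by linarith [D.hc]) (by have := D.hC; positivity)

theorem η_c : D.η ≤ D.c / 4 := min_le_left _ _

theorem η_C : D.C * D.η ≤ 1 / 8 := by
  have h1 : D.η ≤ 1 / (8 * D.C) := min_le_right _ _
  have h2 := mul_le_mul_of_nonneg_left h1 D.hC.le
  have h3 : D.C * (1 / (8 * D.C)) = 1 / 8 := by
    have := D.hC.ne'
    field_simp
  linarith

/-- (iii) -/
theorem local_eq (v : V) (x y : YPt Y) (hx : 1 / 4 ≤ x.x v) (h : D.d x y < D.η) :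
    0 < y.x v ∧ D.d x y = D.δ v (sec v x) (sec v y) := by
  obtain ⟨h1, h2⟩ := D.lower v x y hx (lt_of_lt_of_le h D.η_c)
  refine ⟨h1, le_antisymm ?_ h2⟩
  have hx0 : 0 < x.x v := by linarith
  have h3 := (D.upper v (sec v x) (sec v y) (by
    rw [sum_sec hx0]
    have h4 := mul_le_mul_of_nonneg_left (h2.trans h.le) D.hC.le
    have := D.η_C
    linarith)).2
  rwa [pt_sec hx0, pt_sec h1] at h3

/-- realising vectors near a point -/
theorem local_pt (v : V) (x : YPt Y) (Z : Sec Y v) (hx : 1 / 4 ≤ x.x v)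
    (h : D.δ v (sec v x) Z < D.η) :
    Z.sum < 1 ∧ D.d x (pt Z) = D.δ v (sec v x) Z := by
  have hx0 : 0 < x.x v := by linarith
  obtain ⟨h1, h2⟩ := D.upper v (sec v x) Z (by
    rw [sum_sec hx0]
    have h4 := mul_le_mul_of_nonneg_left h.le D.hC.le
    have := D.η_C
    linarith)
  rw [pt_sec hx0] at h2
  refine ⟨h1, ?_⟩
  have h3 := (D.local_eq v x (pt Z) hx (lt_of_le_of_lt h2 h)).2
  rw [sec_pt h1] at h3
  exact h3

/-- realising points of the cone -/
theorem exists_vec (v : V) (X Z : Sec Y v) (t : ℝ) (ht : 0 ≤ t) (ht' : t ≤ 1)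
    (m : ℝ × (Γ v).Pt) (hm : 0 ≤ m.1)
    (h1 : cdist (D.a v) (D.pol v X) m ≤ t * D.δ v X Z)
    (h2 : cdist (D.a v) (D.pol v Z) m ≤ (1 - t) * D.δ v X Z) :
    ∃ M : Sec Y v, ∀ p : ℝ × (Γ v).Pt, 0 ≤ p.1 →
      cdist (D.a v) p (D.pol v M) = cdist (D.a v) p m := by
  rcases hm.eq_or_lt with hm0 | hm0
  · refine ⟨zsec Y v, fun p hp => ?_⟩
    rw [cdist_zero_right _ _ (D.pol_zsec v) hp, cdist_zero_right _ _ hm0.symm hp]
  · have hedge : Y.edge v m.2.b := by
      by_contra hcon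
      have hfar : ∀ W : Sec Y v, cdist (D.a v) (D.pol v W) m = (D.pol v W).1 + m.1 := by
        intro W
        by_cases hW : (D.pol v W).1 = 0
        · rw [cdist_zero_left _ _ hW hm, hW, zero_add]
        · have hWne : ∃ b, W.x b ≠ 0 := by
            by_contra hcon'
            push Not at hcon'
            exact hW ((D.pz v W).2 hcon')
          have hpi : D.a v (D.pol v W).2 m.2 = Real.pi := by
            apply le_antisymm ((D.ha v).le_pi _ _)
            by_contra hlt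
            push Not at hlt
            exact hcon (D.edge_of_lt v _ _ hlt (D.pe v W hWne))
          exact cdist_pi _ _ hpi (D.pnn v W) hm
      rw [hfar] at h1 h2
      have h3 : D.δ v X Z ≤ (D.pol v X).1 + (D.pol v Z).1 :=
        cdist_le_add _ _ (D.pnn v X) (D.pnn v Z)
      nlinarith
    obtain ⟨M, hM1, hM2, _⟩ := D.pr v m.1 m.2 hm0 hedge
    refine ⟨M, fun p hp => ?_⟩
    exact cdist_congr (D.al v) rfl ((D.al v).refl _) hM1 hM2

end Dat

end Pool.Agent.helper60.FJ3
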