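import Pool.Agent.helper60.FJ3.Local

set_option autoImplicit false
set_option linter.unusedVariables false

/-!
# FJ3, module B4d, part 3: the realisation
-/

namespace Pool.Agent.helper60.FJ3

open Pool.Agent.helper34.FJ2 Pool.Agent.helper34.FJ3
open scoped BigOperators

/-! ### points -/

section points

variable {V : Type} {Y : Complex2 V}

theorem isSimp_subset {σ s : Set V} (hσ : IsSimp Y σ) (hs : s ⊆ σ) (hne : s.Nonempty) :
    IsSimp Y s := by
  classical
  have h1 : ∀ a, s ⊆ {a} → IsSimp Y s := by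
    intro a ha
    exact Or.inl ⟨a, (Set.Nonempty.subset_singleton_iff hne).1 ha⟩
  have h2 : ∀ a b, Y.edge a b → s ⊆ {a, b} → IsSimp Y s := by
    intro a b hab h
    by_cases ha : a ∈ s
    · by_cases hb : b ∈ s
      · refine Or.inr (Or.inl ⟨a, b, hab, Set.Subset.antisymm h ?_⟩)
        rintro w (rfl | rfl)
        · exact ha
        · exact hb
      · apply h1 a
        intro w hw
        rcases h hw with h' | h'
        · exact h'
        · rw [Set.mem_singleton_iff] at h'
          subst h'
          exact absurd hw hb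
    · apply h1 b
      intro w hw
      rcases h hw with h' | h'
      · subst h'
        exact absurd hw ha
      · exact h'
  rcases hσ with ⟨a, rfl⟩ | ⟨a, b, hab, rfl⟩ | ⟨a, b, c, habc, rfl⟩
  · exact h1 a hs
  · exact h2 a b hab hs
  · by_cases ha : a ∈ s
    · by_cases hb : b ∈ s
      · by_cases hc : c ∈ s
        · refine Or.inr (Or.inr ⟨a, b, c, habc, Set.Subset.antisymm hs ?_⟩)
          rintro w (rfl | rfl | rfl)
          · exact ha
          · exact hb
          · exact hc
        · apply h2 a b (Y.tri_edge _ _ _ habc)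
          intro w hw
          rcases hs hw with h' | h' | h'
          · exact Or.inl h'
          · exact Or.inr h'
          · rw [Set.mem_singleton_iff] at h'
            subst h'
            exact absurd hw hc
      · apply h2 a c (Y.tri_edge'' habc)
        intro w hw
        rcases hs hw with h' | h' | h'
        · exact Or.inl h'
        · subst h'
          exact absurd hw hb
        · exact Or.inr h'
    · apply h2 b c (Y.tri_edge' habc)
      intro w hw
      rcases hs hw with h' | h' | h'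
      · subst h'
        exact absurd hw ha
      · exact Or.inl h'
      · exact Or.inr h'

/-- points from coordinates supported in a simplex -/
noncomputable def mkP (x : V →₀ ℝ) (hx : ∀ v, 0 ≤ x v) (h1 : tot x = 1) (σ : Set V)
    (hσ : IsSimp Y σ) (hs : ∀ v, x v ≠ 0 → v ∈ σ) : YPt Y where
  x := x
  nn := hx
  sum_one := h1
  simp := by
    refine isSimp_subset hσ hs ?_
    by_contra hcon
    rw [Set.not_nonempty_iff_eq_empty] at hcon
    have : x = 0 := by
      ext w
      by_contra hw
      have h : w ∈ {v | x v ≠ 0} := hw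
      rw [hcon] at h
      exact h
    rw [this, tot_zero] at h1
    norm_num at h1

/-- clamping to the unit interval -/
noncomputable def cl (t : ℝ) : ℝ := max 0 (min 1 t)

theorem cl_nonneg (t : ℝ) : 0 ≤ cl t := le_max_left _ _

theorem cl_le_one (t : ℝ) : cl t ≤ 1 := max_le zero_le_one (min_le_left _ _)

theorem cl_of_mem {t : ℝ} (h : 0 ≤ t) (h' : t ≤ 1) : cl t = t := by
  unfold cl
  rw [min_eq_right h', max_eq_right h]

theorem cl_symm (t : ℝ) : cl (1 - t) = 1 - cl t := by
  unfold cl
  rcases le_total t 0 with h | h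
  · rw [min_eq_left (by linarith), min_eq_right (by linarith), max_eq_right (by norm_num),
      max_eq_left h]
    ring
  · rcases le_total t 1 with h' | h'
    · rw [min_eq_right (by linarith), min_eq_right h', max_eq_right (by linarith),
        max_eq_right h]
    · rw [min_eq_right (by linarith), min_eq_left h', max_eq_left (by linarith),
        max_eq_right (by norm_num)]
      ring

theorem single_nonneg' (a v : V) {r : ℝ} (hr : 0 ≤ r) : 0 ≤ Finsupp.single a r v := by
  classical
  rw [Finsupp.single_apply]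
  split_ifs
  · exact hr
  · exact le_rfl

theorem single_ne' {a v : V} {r : ℝ} (h : Finsupp.single a r v ≠ 0) : v = a := by
  classical
  rw [Finsupp.single_apply] at h
  by_contra hne
  rw [if_neg (fun h => hne h.symm)] at h
  exact h rfl

open Classical in
/-- the points of an edge -/
noncomputable def ep (Y : Complex2 V) (a b : V) (t : ℝ) : YPt Y :=
  if h : Y.edge a b then
    mkP (Finsupp.single a (1 - cl t) + Finsupp.single b (cl t))
      (fun v => by
        rw [Finsupp.add_apply]
        have h1 := single_nonneg' a v (r := 1 - cl t) (by linarith [cl_le_one t])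
        have h2 := single_nonneg' b v (cl_nonneg t)
        linarith)
      (by rw [tot_add, tot_single, tot_single]; ring) {a, b} (Or.inr (Or.inl ⟨a, b, h, rfl⟩))
      (fun v hv => by
        rw [Finsupp.add_apply] at hv
        by_cases h1 : Finsupp.single a (1 - cl t) v = 0
        · rw [h1, zero_add] at hv
          exact Or.inr (single_ne' hv)
        · exact Or.inl (single_ne' h1))
  else vrt Y a

theorem ep_x {a b : V} (h : Y.edge a b) (t : ℝ) :
    (ep Y a b t).x = Finsupp.single a (1 - cl t) + Finsupp.single b (cl t) := by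
  unfold ep
  rw [dif_pos h]
  rfl

theorem ep_zero {a b : V} (h : Y.edge a b) : ep Y a b 0 = vrt Y a := by
  apply ypt_ext
  rw [ep_x h, cl_of_mem le_rfl zero_le_one, Finsupp.single_zero, add_zero, sub_zero]
  rfl

theorem ep_symm {a b : V} (h : Y.edge a b) (t : ℝ) : ep Y b a t = ep Y a b (1 - t) := by
  apply ypt_ext
  rw [ep_x h, ep_x (Y.edge_symm _ _ h), cl_symm, add_comm]
  congr 2
  ring

theorem ep_ne {a b : V} (h : Y.edge a b) (t : ℝ) (v : V) (hv : (ep Y a b t).x v ≠ 0) :
    v = a ∨ v = b := by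
  rw [ep_x h, Finsupp.add_apply] at hv
  by_cases h1 : Finsupp.single a (1 - cl t) v = 0
  · rw [h1, zero_add] at hv
    exact Or.inr (single_ne' hv)
  · exact Or.inl (single_ne' h1)

theorem ep_comm {a b : V} (h : Y.edge a b) (t t' : ℝ) : (ep Y a b t).Comm (ep Y a b t') :=
  ⟨{a, b}, Or.inr (Or.inl ⟨a, b, h, rfl⟩), fun v hv => ep_ne h t v hv,
    fun v hv => ep_ne h t' v hv⟩

theorem ep_fst {a b : V} (h : Y.edge a b) (t : ℝ) : (ep Y a b t).x a = 1 - cl t := by
  classical
  rw [ep_x h, Finsupp.add_apply, Finsupp.single_eq_same, Finsupp.single_apply,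
    if_neg (fun h' => Y.edge_ne h h'.symm), add_zero]

theorem ep_snd {a b : V} (h : Y.edge a b) (t : ℝ) : (ep Y a b t).x b = cl t := by
  classical
  rw [ep_x h, Finsupp.add_apply, Finsupp.single_eq_same, Finsupp.single_apply,
    if_neg (fun h' => Y.edge_ne h h'), zero_add]

theorem sqd_two (len : V → V → ℝ) (hsymm : ∀ a b, len a b = len b a) {a b : V} (hab : a ≠ b)
    (s : ℝ) : sqd len (Finsupp.single a (-s) + Finsupp.single b s) = s ^ 2 * len a b ^ 2 := by
  classical
  set z : V →₀ ℝ := Finsupp.single a (-s) + Finsupp.single b s with hz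
  have hza : z a = -s := by
    rw [hz, Finsupp.add_apply, Finsupp.single_eq_same, Finsupp.single_apply,
      if_neg (fun h => hab h.symm), add_zero]
  have hzb : z b = s := by
    rw [hz, Finsupp.add_apply, Finsupp.single_eq_same, Finsupp.single_apply, if_neg hab,
      zero_add]
  have hsup : z.support ⊆ {a, b} := by
    intro w hw
    rw [Finsupp.mem_support_iff, hz, Finsupp.add_apply] at hw
    rw [Finset.mem_insert, Finset.mem_singleton]
    by_cases h1 : Finsupp.single a (-s) w = 0
    · rw [h1, zero_add] at hw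
      exact Or.inr (single_ne' hw)
    · exact Or.inl (single_ne' h1)
  have inner : ∀ (c : V) (r : ℝ), (z.sum fun d s => if c = d then 0 else r * s * len c d ^ 2) =
      (if c = a then 0 else r * (-s) * len c a ^ 2) +
        (if c = b then 0 else r * s * len c b ^ 2) := by
    intro c r
    rw [Finsupp.sum_of_support_subset z hsup _ (by intro i _; simp), Finset.sum_pair hab, hza,
      hzb]
  unfold sqd
  rw [Finsupp.sum_of_support_subset z hsup _ (by
    intro i _
    rw [inner]
    simp), Finset.sum_pair hab, inner, inner, hza, hzb]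
  rw [if_pos rfl, if_neg hab, if_neg (Ne.symm hab), if_pos rfl, hsymm b a]
  ring

theorem eD_ep {len : V → V → ℝ} (hn : NPC Y len) {a b : V} (h : Y.edge a b) {t t' : ℝ}
    (ht : 0 ≤ t) (ht1 : t ≤ 1) (ht' : 0 ≤ t') (ht1' : t' ≤ 1) :
    YPt.eD len (ep Y a b t) (ep Y a b t') = |t - t'| * len a b := by
  unfold YPt.eD
  have h1 : (ep Y a b t).x - (ep Y a b t').x =
      Finsupp.single a (-(t - t')) + Finsupp.single b (t - t') := by
    rw [ep_x h, ep_x h, cl_of_mem ht ht1, cl_of_mem ht' ht1']
    have e1 : Finsupp.single a (-(t - t')) =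
        Finsupp.single a (1 - t) - Finsupp.single a (1 - t') := by
      rw [← Finsupp.single_sub]
      congr 1
      ring
    have e2 : Finsupp.single b (t - t') = Finsupp.single b t - Finsupp.single b t' :=
      Finsupp.single_sub _ _ _
    rw [e1, e2]
    abel
  rw [h1, sqd_two len hn.symm (Y.edge_ne h), ← mul_pow, Real.sqrt_sq_eq_abs, abs_mul,
    abs_of_pos (hn.pos _ _ h)]

open Classical in
/-- the points of a triangle -/
noncomputable def tp (Y : Complex2 V) (a b c : V) (u : ℝ × ℝ) : YPt Y :=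
  if h : Y.tri a b c ∧ u ∈ stdTri then
    mkP (Finsupp.single a (1 - u.1 - u.2) + Finsupp.single b u.1 + Finsupp.single c u.2)
      (fun v => by
        obtain ⟨_, h1, h2, h3⟩ := h
        rw [Finsupp.add_apply, Finsupp.add_apply]
        have e1 := single_nonneg' a v (r := 1 - u.1 - u.2) (by linarith)
        have e2 := single_nonneg' b v h1
        have e3 := single_nonneg' c v h2
        linarith)
      (by rw [tot_add, tot_add, tot_single, tot_single, tot_single]; ring) {a, b, c}
      (Or.inr (Or.inr ⟨a, b, c, h.1, rfl⟩))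
      (fun v hv => by
        rw [Finsupp.add_apply, Finsupp.add_apply] at hv
        by_cases h1 : Finsupp.single a (1 - u.1 - u.2) v = 0
        · by_cases h2 : Finsupp.single b u.1 v = 0
          · rw [h1, h2, zero_add, zero_add] at hv
            exact Or.inr (Or.inr (single_ne' hv))
          · exact Or.inr (Or.inl (single_ne' h2))
        · exact Or.inl (single_ne' h1))
  else if u.2 = 0 then ep Y a b u.1 else if u.1 = 0 then ep Y a c u.2 else ep Y b c u.2

theorem tp_x {a b c : V} (h : Y.tri a b c) {u : ℝ × ℝ} (hu : u ∈ stdTri) :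
    (tp Y a b c u).x =
      Finsupp.single a (1 - u.1 - u.2) + Finsupp.single b u.1 + Finsupp.single c u.2 := by
  unfold tp
  rw [dif_pos ⟨h, hu⟩]
  rfl

theorem tp_ab {a b c : V} (h : Y.tri a b c) (t : ℝ) : tp Y a b c (t, 0) = ep Y a b t := by
  by_cases hu : ((t, 0) : ℝ × ℝ) ∈ stdTri
  · obtain ⟨h1, h2, h3⟩ := hu
    dsimp only at h1 h2 h3
    apply ypt_ext
    rw [tp_x h ⟨h1, h2, h3⟩, ep_x (Y.tri_edge _ _ _ h), cl_of_mem h1 (by linarith)]
    dsimp only
    rw [Finsupp.single_zero, add_zero, sub_zero]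
  · unfold tp
    rw [dif_neg (fun h => hu h.2), if_pos rfl]

theorem tp_ac {a b c : V} (h : Y.tri a b c) (t : ℝ) : tp Y a b c (0, t) = ep Y a c t := by
  by_cases hu : ((0, t) : ℝ × ℝ) ∈ stdTri
  · obtain ⟨h1, h2, h3⟩ := hu
    dsimp only at h1 h2 h3
    apply ypt_ext
    rw [tp_x h ⟨h1, h2, h3⟩, ep_x (Y.tri_edge'' h), cl_of_mem h2 (by linarith)]
    dsimp only
    rw [Finsupp.single_zero, add_zero, sub_zero]
  · have ht : t ≠ 0 := by
      rintro rfl
      exact hu ⟨le_rfl, le_rfl, by norm_num⟩
    unfold tp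
    rw [dif_neg (fun h => hu h.2), if_neg ht, if_pos rfl]

theorem tp_bc {a b c : V} (h : Y.tri a b c) (t : ℝ) : tp Y a b c (1 - t, t) = ep Y b c t := by
  by_cases hu : ((1 - t, t) : ℝ × ℝ) ∈ stdTri
  · obtain ⟨h1, h2, h3⟩ := hu
    dsimp only at h1 h2 h3
    apply ypt_ext
    rw [tp_x h ⟨h1, h2, h3⟩, ep_x (Y.tri_edge' h), cl_of_mem h2 (by linarith)]
    dsimp only
    have : 1 - (1 - t) - t = 0 := by ring
    rw [this, Finsupp.single_zero, zero_add]
  · have ht : t ≠ 0 := by
      rintro rfl
      exact hu ⟨by norm_num, le_rfl, by norm_num⟩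
    have ht' : 1 - t ≠ 0 := by
      intro h'
      have : t = 1 := by linarith
      subst this
      exact hu ⟨by norm_num, by norm_num, by norm_num⟩
    unfold tp
    rw [dif_neg (fun h => hu h.2), if_neg ht, if_neg ht']

theorem tp_comm {a b c : V} (h : Y.tri a b c) {u w : ℝ × ℝ} (hu : u ∈ stdTri)
    (hw : w ∈ stdTri) : (tp Y a b c u).Comm (tp Y a b c w) := by
  have key : ∀ u : ℝ × ℝ, u ∈ stdTri → {v | (tp Y a b c u).x v ≠ 0} ⊆ {a, b, c} := by
    intro u hu v hv
    rw [Set.mem_ofPred_eq, tp_x h hu, Finsupp.add_apply, Finsupp.add_apply] at hv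
    by_cases h1 : Finsupp.single a (1 - u.1 - u.2) v = 0
    · by_cases h2 : Finsupp.single b u.1 v = 0
      · rw [h1, h2, zero_add, zero_add] at hv
        exact Or.inr (Or.inr (single_ne' hv))
      · exact Or.inr (Or.inl (single_ne' h2))
    · exact Or.inl (single_ne' h1)
  exact ⟨{a, b, c}, Or.inr (Or.inr ⟨a, b, c, h, rfl⟩), key u hu, key w hw⟩

/-- the `ℓ¹` norm -/
noncomputable def nrm (z : V →₀ ℝ) : ℝ := z.sum fun _ r => |r|

theorem nrm_add (z w : V →₀ ℝ) : nrm (z + w) ≤ nrm z + nrm w := by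
  classical
  unfold nrm
  rw [Finsupp.sum_of_support_subset (z + w) (s := z.support ∪ w.support)
      (Finsupp.support_add) _ (by intro i _; exact abs_zero),
    Finsupp.sum_of_support_subset z (s := z.support ∪ w.support)
      Finset.subset_union_left _ (by intro i _; exact abs_zero),
    Finsupp.sum_of_support_subset w (s := z.support ∪ w.support)
      Finset.subset_union_right _ (by intro i _; exact abs_zero), ← Finset.sum_add_distrib]
  exact Finset.sum_le_sum fun i _ => abs_add_le _ _

theorem nrm_single (a : V) (r : ℝ) : nrm (Finsupp.single a r) = |r| :=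
  Finsupp.sum_single_index abs_zero

theorem l1_ep {a b : V} (h : Y.edge a b) {t t' : ℝ}
    (ht : 0 ≤ t) (ht1 : t ≤ 1) (ht' : 0 ≤ t') (ht1' : t' ≤ 1) :
    YPt.l1 (ep Y a b t) (ep Y a b t') ≤ 2 * |t - t'| := by
  have h1 : (ep Y a b t).x - (ep Y a b t').x =
      Finsupp.single a (-(t - t')) + Finsupp.single b (t - t') := by
    rw [ep_x h, ep_x h, cl_of_mem ht ht1, cl_of_mem ht' ht1']
    have e1 : Finsupp.single a (-(t - t')) =
        Finsupp.single a (1 - t) - Finsupp.single a (1 - t') := by
      rw [← Finsupp.single_sub]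
      congr 1
      ring
    have e2 : Finsupp.single b (t - t') = Finsupp.single b t - Finsupp.single b t' :=
      Finsupp.single_sub _ _ _
    rw [e1, e2]
    abel
  change nrm _ ≤ _
  rw [h1]
  refine (nrm_add _ _).trans ?_
  rw [nrm_single, nrm_single, abs_neg]
  linarith

theorem l1_tp {a b c : V} (h : Y.tri a b c) {u w : ℝ × ℝ} (hu : u ∈ stdTri)
    (hw : w ∈ stdTri) : YPt.l1 (tp Y a b c u) (tp Y a b c w) ≤ 4 * ‖u - w‖ := by
  have h1 : (tp Y a b c u).x - (tp Y a b c w).x =
      Finsupp.single a (-(u.1 - w.1) - (u.2 - w.2)) + Finsupp.single b (u.1 - w.1) +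
        Finsupp.single c (u.2 - w.2) := by
    rw [tp_x h hu, tp_x h hw]
    have e1 : Finsupp.single a (-(u.1 - w.1) - (u.2 - w.2)) =
        Finsupp.single a (1 - u.1 - u.2) - Finsupp.single a (1 - w.1 - w.2) := by
      rw [← Finsupp.single_sub]
      congr 1
      ring
    have e2 : Finsupp.single b (u.1 - w.1) = Finsupp.single b u.1 - Finsupp.single b w.1 :=
      Finsupp.single_sub _ _ _
    have e3 : Finsupp.single c (u.2 - w.2) = Finsupp.single c u.2 - Finsupp.single c w.2 :=
      Finsupp.single_sub _ _ _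
    rw [e1, e2, e3]
    abel
  change nrm _ ≤ _
  rw [h1]
  refine (nrm_add _ _).trans ?_
  have h2 := nrm_add (Finsupp.single a (-(u.1 - w.1) - (u.2 - w.2)))
    (Finsupp.single b (u.1 - w.1))
  rw [nrm_single, nrm_single] at h2
  rw [nrm_single]
  have h3 : |u.1 - w.1| ≤ ‖u - w‖ := norm_fst_le (u - w)
  have h4 : |u.2 - w.2| ≤ ‖u - w‖ := norm_snd_le (u - w)
  have h5 : |-(u.1 - w.1) - (u.2 - w.2)| ≤ |u.1 - w.1| + |u.2 - w.2| := by
    have := abs_sub (-(u.1 - w.1)) (u.2 - w.2)
    rwa [abs_neg] at this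
  linarith

end points

namespace Dat

variable {V : Type} {Y : Complex2 V} {len : V → V → ℝ} {Γ : V → MGraph V} (D : Dat Y len Γ)

theorem lcn (x y : YPt Y) (h : D.d x y < D.η / 3) (t : ℝ) (ht : 0 ≤ t) (ht' : t ≤ 1) :
    ∃ m : YPt Y, ∀ z, D.d z x < D.η / 3 → D.d z y < D.η / 3 →
      D.d z m ^ 2 ≤ (1 - t) * D.d z x ^ 2 + t * D.d z y ^ 2 - t * (1 - t) * D.d x y ^ 2 := by
  have hη := D.η_pos
  obtain ⟨v, hv⟩ := exists_coord x
  obtain ⟨hy, hxy⟩ := D.local_eq v x y (by linarith) (by linarith)
  obtain ⟨m, hm0, hm⟩ := Pool.Agent.helper22.FJ3.cone_cn (D.a v) (D.al v) (D.ha v).mid (D.pol v (sec v x))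
    (D.pol v (sec v y)) (D.pnn v _) (D.pnn v _) t ht ht'
  set S := D.δ v (sec v x) (sec v y) with hS
  have hS' : cdist (D.a v) (D.pol v (sec v x)) (D.pol v (sec v y)) = S := rfl
  have hS0 : 0 ≤ S := D.δ_nonneg _ _ _
  have h1 : cdist (D.a v) (D.pol v (sec v x)) m ≤ t * S := by
    have := hm (D.pol v (sec v x)) (D.pnn v _)
    rw [cdist_self (D.al v), hS'] at this
    have h2 : cdist (D.a v) (D.pol v (sec v x)) m ^ 2 ≤ (t * S) ^ 2 := by nlinarith
    exact (le_abs_self _).trans (abs_le_of_sq_le_sq h2 (mul_nonneg ht hS0))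
  have h2 : cdist (D.a v) (D.pol v (sec v y)) m ≤ (1 - t) * S := by
    have := hm (D.pol v (sec v y)) (D.pnn v _)
    rw [cdist_self (D.al v), cdist_symm (D.al v) (D.pol v (sec v y)) (D.pol v (sec v x)),
      hS'] at this
    have h2 : cdist (D.a v) (D.pol v (sec v y)) m ^ 2 ≤ ((1 - t) * S) ^ 2 := by nlinarith
    exact (le_abs_self _).trans (abs_le_of_sq_le_sq h2 (mul_nonneg (by linarith) hS0))
  obtain ⟨M, hM⟩ := D.exists_vec v (sec v x) (sec v y) t ht ht' m hm0 h1 h2
  have h3 : D.δ v (sec v x) M ≤ t * S := by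
    rw [δ, hM _ (D.pnn v _)]
    exact h1
  have h4 : t * S ≤ S := by nlinarith
  refine ⟨pt M, fun z hzx hzy => ?_⟩
  have hzv : 1 / 4 ≤ z.x v := by
    have h5 := (abs_le.1 (D.coord z x v)).1
    have h6 : D.d z x / D.c ≤ 1 / 12 := by
      rw [div_le_iff₀ D.hc]
      have := D.η_c
      linarith
    linarith
  have hz1 := (D.local_eq v z x hzv (by linarith)).2
  have hz2 := (D.local_eq v z y hzv (by linarith)).2
  have h7 := D.δ_tri v (sec v z) (sec v x) M
  have hz3 := (D.local_pt v z M hzv (by linarith)).2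
  rw [hz1, hz2, hz3, hxy]
  have h8 := hm (D.pol v (sec v z)) (D.pnn v _)
  rw [← hM _ (D.pnn v _)] at h8
  exact h8

/-- the metric space -/
@[reducible]
noncomputable def ms : MetricSpace (YPt Y) where
  dist := D.d
  dist_self := D.d_self
  dist_comm := D.d_symm
  dist_triangle := D.d_tri
  eq_of_dist_eq_zero := fun {x y} h => D.d_eq x y h

open Classical in
/-- the direction -/
noncomputable def dir (p : V) (q : YPt Y) : (Γ p).Pt := (D.pol p (sec p q)).2

theorem vrt_apply (p : V) : (vrt Y p).x p = 1 := Finsupp.single_eq_same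

theorem sec_vrt (p : V) : sec p (vrt Y p) = zsec Y p := by
  classical
  apply sec_ext
  rw [sec_x (by rw [vrt_apply]; norm_num)]
  ext w
  change (Finsupp.single p (1 : ℝ)).erase p w = 0
  rw [Finsupp.erase_apply, Finsupp.single_apply]
  by_cases h : w = p
  · rw [if_pos h]
  · rw [if_neg h, if_neg (fun h' => h h'.symm)]

theorem vert_dist (p : V) (q : YPt Y) (h : D.d (vrt Y p) q < D.η) :
    0 < q.x p ∧ D.d (vrt Y p) q = (D.pol p (sec p q)).1 := by
  obtain ⟨h1, h2⟩ := D.local_eq p (vrt Y p) q (by rw [vrt_apply]; norm_num) h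
  refine ⟨h1, ?_⟩
  rw [h2, sec_vrt, D.δ_zsec']

theorem cone_eq (p : V) (q q' : YPt Y) (h : D.d (vrt Y p) q < D.η / 3)
    (h' : D.d (vrt Y p) q' < D.η / 3) :
    D.d q q' = cdist (D.a p) (D.d (vrt Y p) q, D.dir p q) (D.d (vrt Y p) q', D.dir p q') := by
  have hη := D.η_pos
  obtain ⟨h1, h2⟩ := D.vert_dist p q (by linarith)
  obtain ⟨h1', h2'⟩ := D.vert_dist p q' (by linarith)
  rw [h2, h2']
  change D.d q q' = D.δ p (sec p q) (sec p q')
  have h3 := D.d_tri q (vrt Y p) q'
  rw [D.d_symm q (vrt Y p)] at h3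
  have h4 : 1 / 4 ≤ q.x p := by
    have h5 := (abs_le.1 (D.coord (vrt Y p) q p)).2
    rw [vrt_apply] at h5
    have h6 : D.d (vrt Y p) q / D.c ≤ 1 / 12 := by
      rw [div_le_iff₀ D.hc]
      have := D.η_c
      linarith
    linarith
  exact (D.local_eq p q q' h4 (by linarith)).2

theorem ep_dist (hn : NPC Y len) (a b : V) (t t' : ℝ) (h : Y.edge a b) (ht : 0 ≤ t)
    (ht1 : t ≤ 1) (ht' : 0 ≤ t') (ht1' : t' ≤ 1) (hlt : |t - t'| * len a b < D.η / 3) :
    D.d (ep Y a b t) (ep Y a b t') = |t - t'| * len a b := by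
  have hη := D.η_pos
  have h1 := D.up _ _ (ep_comm h t t')
  rw [eD_ep hn h ht ht1 ht' ht1'] at h1
  have key : ∀ v, 1 / 4 ≤ (ep Y a b t).x v →
      D.d (ep Y a b t) (ep Y a b t') = |t - t'| * len a b := by
    intro v hv
    obtain ⟨h2, h3⟩ := D.local_eq v (ep Y a b t) (ep Y a b t') hv (by linarith)
    rw [h3, ← eD_ep hn h ht ht1 ht' ht1', eD_sec len (by linarith) h2]
    exact D.adj_δ (comm_sec (ep_comm h t t') (by linarith) h2)
  rcases le_total t (1 / 2) with h2 | h2
  · apply key a
    rw [ep_fst h, cl_of_mem ht ht1]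
    linarith
  · apply key b
    rw [ep_snd h, cl_of_mem ht ht1]
    linarith

theorem dir_ep (hn : NPC Y len) (p x : V) (t : ℝ) (h : Y.edge p x) (ht : 0 < t) (ht1 : t ≤ 1)
    (hlt : t * len p x < D.η / 3) : D.a p (D.dir p (ep Y p x t)) ((Γ p).vtx x) = 0 := by
  classical
  have hη := D.η_pos
  have ht2 : t ≠ 1 := by
    rintro rfl
    have h1 := D.up _ _ (ep_comm h 0 1)
    rw [eD_ep hn h le_rfl zero_le_one zero_le_one le_rfl] at h1
    have h2 := (abs_le.1 (D.coord (ep Y p x 0) (ep Y p x 1) p)).2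
    rw [ep_fst h, ep_fst h, cl_of_mem le_rfl zero_le_one, cl_of_mem zero_le_one le_rfl] at h2
    have h3 : D.d (ep Y p x 0) (ep Y p x 1) / D.c ≤ 1 / 12 := by
      rw [div_le_iff₀ D.hc]
      have := D.η_c
      have h4 : |(0 : ℝ) - 1| * len p x = 1 * len p x := by norm_num
      rw [h4] at h1
      linarith
    linarith
  have ht3 : t < 1 := lt_of_le_of_ne ht1 ht2
  apply D.pv p
  have hp : 0 < (ep Y p x t).x p := by
    rw [ep_fst h, cl_of_mem ht.le ht1]
    linarith
  intro d
  rw [sec_x hp, Finsupp.erase_apply]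
  constructor
  · intro hd
    by_cases hdp : d = p
    · rw [if_pos hdp] at hd
      exact absurd rfl hd
    · rw [if_neg hdp] at hd
      exact (ep_ne h t d hd).resolve_left hdp
  · rintro rfl
    rw [if_neg (fun h' => Y.edge_ne h h'.symm), ep_snd h, cl_of_mem ht.le ht1]
    exact ht.ne'

end Dat

theorem sqd_neg {V : Type} (len : V → V → ℝ) (z : V →₀ ℝ) : sqd len (-z) = sqd len z := by
  classical
  unfold sqd
  rw [Finsupp.sum_neg_index (by intro a; simp)]
  congr 1
  apply Finset.sum_congr rfl
  intro a _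
  change ((-z).sum fun b s => if a = b then 0 else -(z a) * s * len a b ^ 2) = _
  rw [Finsupp.sum_neg_index (by intro b; simp)]
  apply Finset.sum_congr rfl
  intro b _
  change (if a = b then 0 else -(z a) * -(z b) * len a b ^ 2) = _
  simp

theorem exists_realization {V : Type} (Y : Complex2 V) (len : V → V → ℝ)
    (hs : SimplyConnected Y) (hn : NPC Y len)
    (hf : {r : ℝ | ∃ a b, Y.edge a b ∧ len a b = r}.Finite) :
    Nonempty (Realization Y len (linkG Y len hn hf)) := by
  classical
  obtain ⟨c, C0, hc, hcC⟩ := Pool.Agent.helper68.FJ3.eD_bounds Y len hn hf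
  obtain ⟨C, hC, hgb⟩ := Pool.Agent.helper68.FJ3.gD_bounds Y len hn hf
  have hl1 := Pool.Agent.helper68.FJ3.l1_metric Y
  obtain ⟨d, hd, hlow, hup, hch⟩ := Pool.Agent.helper68.FJ3.chain_metric (YPt.l1 (Y := Y)) hl1 YPt.Comm
    (YPt.eD len) (fun x => ⟨_, x.simp, subset_rfl, subset_rfl⟩)
    (fun x y ⟨σ, h1, h2, h3⟩ => ⟨σ, h1, h3, h2⟩) (fun x y => Real.sqrt_nonneg _)
    (fun x y => by
      unfold YPt.eD
      congr 1
      have h1 : x.x - y.x = -(y.x - x.x) := by abel
      rw [h1, sqd_neg])
    c C0 hc (fun x y h => (hcC x y h).1) (fun x y h => (hcC x y h).2) (Pool.Agent.helper68.FJ3.comm_near Y)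
    (Pool.Agent.helper68.FJ3.comm_conn Y hs)
  choose a ha using fun v => Pool.Agent.helper26.FJ3.exists_linkMetric (linkG Y len hn hf v)
  choose pol h1 h2 h3 h4 h5 h6 h7 using fun v =>
    Pool.Agent.helper84.FJ3.exists_polar Y len hn hf v (a v) (ha v)
  let D : Dat Y len (linkG Y len hn hf) :=
    { d := d
      d_nonneg := hd.nonneg
      d_self := hd.self
      d_eq := hd.eq
      d_symm := hd.symm
      d_tri := hd.tri
      c := c
      hc := hc
      low := hlow
      up := hup
      ch := hch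
      C := C
      hC := hC
      gb := hgb
      hadj := fun v b c h => h
      a := a
      ha := ha
      pol := pol
      pnn := h1
      pz := h2
      pc := h3
      pv := h4
      pe := h5
      pr := h6
      ps := h7 }
  let _ : MetricSpace (YPt Y) := D.ms
  have hcomplete : CompleteSpace (YPt Y) := by
    apply Metric.complete_of_cauchySeq_tendsto
    intro u hu
    rw [Metric.cauchySeq_iff] at hu
    obtain ⟨x, hx⟩ := hd.complete u (by
      intro ε hε
      obtain ⟨N, hN⟩ := hu ε hε
      exact ⟨N, fun m n hm hn => hN m hm n hn⟩)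
    exact ⟨x, Metric.tendsto_atTop.2 hx⟩
  have hη := D.η_pos
  refine ⟨?_⟩
  exact
    { M := YPt Y
      ms := D.ms
      cs := hcomplete
      r0 := D.η / 3
      cn := ⟨by linarith, fun x y h t ht ht' => D.lcn x y h t ht ht'⟩
      vert := vrt Y
      ep := ep Y
      ep_zero := fun a b h => ep_zero h
      ep_symm := fun a b t h => ep_symm h t
      ep_dist := fun a b t t' h ht ht1 ht' ht1' hlt =>
        D.ep_dist hn a b t t' h ht ht1 ht' ht1' hlt
      tp := tp Y
      tp_ab := fun a b c t h => tp_ab h t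
      tp_ac := fun a b c t h => tp_ac h t
      tp_bc := fun a b c t h => tp_bc h t
      lip := 4 * |C0| + 1
      lip_pos := by positivity
      ep_lip := by
        intro a b t t' h ht ht1 ht' ht1'
        have e1 := D.up _ _ (ep_comm h t t')
        have e2 := (hcC _ _ (ep_comm h t t')).2
        have e3 := l1_ep h ht ht1 ht' ht1'
        have e4 : C0 * YPt.l1 (ep Y a b t) (ep Y a b t') ≤
            |C0| * (2 * |t - t'|) :=
          mul_le_mul (le_abs_self _) e3 (hl1.nonneg _ _) (abs_nonneg _)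
        have e5 : 0 ≤ |C0| * |t - t'| := by positivity
        have e6 := abs_nonneg (t - t')
        change D.d (ep Y a b t) (ep Y a b t') ≤ _
        nlinarith
      tp_lip := by
        intro a b c h u hu w hw
        have e1 := D.up _ _ (tp_comm h hu hw)
        have e2 := (hcC _ _ (tp_comm h hu hw)).2
        have e3 := l1_tp h hu hw
        have e4 : C0 * YPt.l1 (tp Y a b c u) (tp Y a b c w) ≤
            |C0| * (4 * ‖u - w‖) :=
          mul_le_mul (le_abs_self _) e3 (hl1.nonneg _ _) (abs_nonneg _)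
        have e6 := norm_nonneg (u - w)
        change D.d (tp Y a b c u) (tp Y a b c w) ≤ _
        nlinarith
      a := a
      ha := ha
      dir := D.dir
      cone := fun p q q' h h' => D.cone_eq p q q' h h'
      dir_ep := fun p x t h ht ht1 hlt => D.dir_ep hn p x t h ht ht1 hlt }

end Pool.Agent.helper60.FJ3
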