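import Pool.Agent.helper34.FJ3.DefsB

set_option autoImplicit false
set_option linter.unusedVariables false

/-!
# FJ3, module B4d, part 1: the star of a vertex
-/

namespace Pool.Agent.helper60.FJ3

open Pool.Agent.helper34.FJ2 Pool.Agent.helper34.FJ3
open scoped BigOperators

variable {V : Type}

/-- the sum of the coordinates -/
noncomputable def tot (x : V →₀ ℝ) : ℝ := x.sum fun _ r => r

theorem tot_add (x y : V →₀ ℝ) : tot (x + y) = tot x + tot y := by
  classical
  exact Finsupp.sum_add_index' (fun _ => rfl) (fun _ _ _ => rfl)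

theorem tot_zero : tot (0 : V →₀ ℝ) = 0 := rfl

theorem tot_single (v : V) (r : ℝ) : tot (Finsupp.single v r) = r :=
  Finsupp.sum_single_index rfl

theorem tot_neg (x : V →₀ ℝ) : tot (-x) = - tot x := by
  have h := tot_add x (-x)
  rw [add_neg_cancel, tot_zero] at h
  linarith

theorem tot_sub (x y : V →₀ ℝ) : tot (x - y) = tot x - tot y := by
  rw [sub_eq_add_neg, tot_add, tot_neg, sub_eq_add_neg]

theorem tot_nonneg (x : V →₀ ℝ) (h : ∀ v, 0 ≤ x v) : 0 ≤ tot x :=
  Finset.sum_nonneg fun v _ => h v

theorem erase_add (x : V →₀ ℝ) (v : V) : x.erase v + Finsupp.single v (x v) = x := by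
  classical
  ext w
  rw [Finsupp.add_apply, Finsupp.erase_apply, Finsupp.single_apply]
  by_cases h : w = v
  · subst h; simp
  · rw [if_neg h, if_neg (fun h' => h h'.symm), add_zero]

theorem tot_erase (x : V →₀ ℝ) (v : V) : tot (x.erase v) = tot x - x v := by
  have h := tot_add (x.erase v) (Finsupp.single v (x v))
  rw [erase_add, tot_single] at h
  linarith

variable {Y : Complex2 V}

theorem ypt_ext {x y : YPt Y} (h : x.x = y.x) : x = y := by
  cases x; cases y
  cases h
  rfl

theorem sec_ext {v : V} {X Z : Sec Y v} (h : X.x = Z.x) : X = Z := by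
  cases X; cases Z
  cases h
  rfl

/-- the vertices -/
noncomputable def vrt (Y : Complex2 V) (v : V) : YPt Y where
  x := Finsupp.single v 1
  nn w := by
    classical
    rw [Finsupp.single_apply]
    split_ifs <;> norm_num
  sum_one := tot_single v 1
  simp := by
    classical
    refine Or.inl ⟨v, ?_⟩
    ext w
    rw [Set.mem_ofPred_eq, Finsupp.single_apply, Set.mem_singleton_iff]
    constructor
    · intro h
      by_contra h'
      rw [if_neg (fun h => h' h.symm)] at h
      exact h rfl
    · intro h
      rw [if_pos h.symm]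
      norm_num

theorem coord_le (x y : YPt Y) (v : V) : |x.x v - y.x v| ≤ YPt.l1 x y := by
  classical
  unfold YPt.l1
  rw [← Finsupp.sub_apply]
  by_cases h : v ∈ (x.x - y.x).support
  · exact Finset.single_le_sum (f := fun w => |(x.x - y.x) w|) (fun w _ => abs_nonneg _) h
  · rw [Finsupp.notMem_support_iff.1 h, abs_zero]
    exact Finset.sum_nonneg fun w _ => abs_nonneg _

/-- the zero vector -/
noncomputable def zsec (Y : Complex2 V) (v : V) : Sec Y v where
  x := 0
  nn b := le_rfl
  simp := Or.inl fun b => rfl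

theorem sec_simp (x : YPt Y) (v : V) (h : 0 < x.x v) :
    (∀ b, x.x.erase v b = 0) ∨ (∃ b, Y.edge v b ∧ ∀ d, x.x.erase v d ≠ 0 → d = b) ∨
    ∃ b c, Y.tri v b c ∧ ∀ d, x.x.erase v d ≠ 0 → d = b ∨ d = c := by
  classical
  have hv : v ∈ {w | x.x w ≠ 0} := ne_of_gt h
  have he : ∀ d, x.x.erase v d ≠ 0 → d ≠ v ∧ d ∈ {w | x.x w ≠ 0} := by
    intro d hd
    rw [Finsupp.erase_apply] at hd
    by_cases h' : d = v
    · rw [if_pos h'] at hd
      exact absurd rfl hd
    · rw [if_neg h'] at hd
      exact ⟨h', hd⟩
  rcases x.simp with ⟨a, ha⟩ | ⟨a, b, hab, hs⟩ | ⟨a, b, c, habc, hs⟩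
  · left
    intro d
    by_contra hd
    obtain ⟨h1, h2⟩ := he d hd
    rw [ha] at h2 hv
    exact h1 (h2.trans hv.symm)
  · right; left
    rw [hs] at hv he
    rcases hv with rfl | hv
    · refine ⟨b, hab, fun d hd => ?_⟩
      obtain ⟨h1, h2 | h2⟩ := he d hd
      · exact absurd h2 h1
      · exact h2
    · rw [Set.mem_singleton_iff] at hv
      subst hv
      refine ⟨a, Y.edge_symm _ _ hab, fun d hd => ?_⟩
      obtain ⟨h1, h2 | h2⟩ := he d hd
      · exact h2
      · exact absurd h2 h1
  · right; right
    rw [hs] at hv he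
    rcases hv with rfl | hv | hv
    · refine ⟨b, c, habc, fun d hd => ?_⟩
      obtain ⟨h1, h2 | h2 | h2⟩ := he d hd
      · exact absurd h2 h1
      · exact Or.inl h2
      · exact Or.inr h2
    · subst hv
      refine ⟨a, c, Y.tri_swap _ _ _ habc, fun d hd => ?_⟩
      obtain ⟨h1, h2 | h2 | h2⟩ := he d hd
      · exact Or.inl h2
      · exact absurd h2 h1
      · exact Or.inr h2
    · rw [Set.mem_singleton_iff] at hv
      subst hv
      refine ⟨a, b, Y.tri_rot _ _ _ (Y.tri_rot _ _ _ habc), fun d hd => ?_⟩
      obtain ⟨h1, h2 | h2 | h2⟩ := he d hd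
      · exact Or.inl h2
      · exact Or.inr h2
      · exact absurd h2 h1

open Classical in
/-- the vector from the vertex `v` to the point `x` of its open star -/
noncomputable def sec (v : V) (x : YPt Y) : Sec Y v :=
  if h : 0 < x.x v then
    { x := x.x.erase v
      nn := fun b => by
        rw [Finsupp.erase_apply]
        split_ifs
        · exact le_rfl
        · exact x.nn b
      simp := sec_simp x v h }
  else zsec Y v

theorem sec_x {v : V} {x : YPt Y} (h : 0 < x.x v) : (sec v x).x = x.x.erase v := by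
  unfold sec
  rw [dif_pos h]

theorem x_eq {v : V} {x : YPt Y} (h : 0 < x.x v) :
    x.x = (sec v x).x + Finsupp.single v (x.x v) := by
  rw [sec_x h, erase_add]

theorem sum_sec {v : V} {x : YPt Y} (h : 0 < x.x v) : (sec v x).sum = 1 - x.x v := by
  change tot (sec v x).x = _
  rw [sec_x h, tot_erase]
  congr 1
  exact x.sum_one

theorem sec_v {v : V} (Z : Sec Y v) : Z.x v = 0 := by
  rcases Z.simp with h | ⟨b, hb, h⟩ | ⟨b, c, hb, h⟩
  · exact h v
  · by_contra hv
    exact Y.edge_ne hb (h v hv)
  · by_contra hv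
    rcases h v hv with h | h
    · exact Y.edge_ne (Y.tri_edge _ _ _ hb) h
    · exact Y.edge_ne (Y.tri_edge'' hb) h

theorem pt_simp {v : V} (Z : Sec Y v) (r : ℝ) (hr : 0 < r) :
    IsSimp Y {w | (Z.x + Finsupp.single v r) w ≠ 0} := by
  classical
  have hset : {w | (Z.x + Finsupp.single v r) w ≠ 0} = insert v {w | Z.x w ≠ 0} := by
    ext w
    rw [Set.mem_ofPred_eq, Finsupp.add_apply, Finsupp.single_apply, Set.mem_insert_iff,
      Set.mem_ofPred_eq]
    by_cases h : v = w
    · subst h
      rw [if_pos rfl, sec_v, zero_add]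
      simp [ne_of_gt hr]
    · rw [if_neg h, add_zero]
      constructor
      · exact fun h' => Or.inr h'
      · rintro (h' | h')
        · exact absurd h'.symm h
        · exact h'
  rw [hset]
  rcases Z.simp with h | ⟨b, hb, h⟩ | ⟨b, c, hb, h⟩
  · left
    refine ⟨v, ?_⟩
    have : {w | Z.x w ≠ 0} = ∅ := by
      ext w
      simp [h w]
    rw [this, insert_empty_eq]
  · by_cases hzb : Z.x b = 0
    · left
      refine ⟨v, ?_⟩
      have : {w | Z.x w ≠ 0} = ∅ := by
        ext w
        simp only [Set.mem_ofPred_eq, Set.mem_empty_iff_false, iff_false, not_not]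
        by_contra hw
        have := h w hw
        subst this
        exact hw hzb
      rw [this, insert_empty_eq]
    · right; left
      refine ⟨v, b, hb, ?_⟩
      congr 1
      ext w
      simp only [Set.mem_ofPred_eq, Set.mem_singleton_iff]
      constructor
      · exact h w
      · rintro rfl
        exact hzb
  · by_cases hzb : Z.x b = 0
    · by_cases hzc : Z.x c = 0
      · left
        refine ⟨v, ?_⟩
        have : {w | Z.x w ≠ 0} = ∅ := by
          ext w
          simp only [Set.mem_ofPred_eq, Set.mem_empty_iff_false, iff_false, not_not]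
          by_contra hw
          rcases h w hw with h' | h'
          · subst h'
            exact hw hzb
          · subst h'
            exact hw hzc
        rw [this, insert_empty_eq]
      · right; left
        refine ⟨v, c, Y.tri_edge'' hb, ?_⟩
        congr 1
        ext w
        simp only [Set.mem_ofPred_eq, Set.mem_singleton_iff]
        constructor
        · intro hw
          rcases h w hw with h' | h'
          · subst h'
            exact absurd hzb hw
          · exact h'
        · rintro rfl
          exact hzc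
    · by_cases hzc : Z.x c = 0
      · right; left
        refine ⟨v, b, Y.tri_edge _ _ _ hb, ?_⟩
        congr 1
        ext w
        simp only [Set.mem_ofPred_eq, Set.mem_singleton_iff]
        constructor
        · intro hw
          rcases h w hw with h' | h'
          · exact h'
          · subst h'
            exact absurd hzc hw
        · rintro rfl
          exact hzb
      · right; right
        refine ⟨v, b, c, hb, ?_⟩
        congr 1
        ext w
        simp only [Set.mem_ofPred_eq, Set.mem_singleton_iff, Set.mem_insert_iff]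
        constructor
        · exact h w
        · rintro (rfl | rfl)
          · exact hzb
          · exact hzc

open Classical in
/-- the point of the open star of `v` given by a vector -/
noncomputable def pt {v : V} (Z : Sec Y v) : YPt Y :=
  if h : Z.sum < 1 then
    { x := Z.x + Finsupp.single v (1 - Z.sum)
      nn := fun b => by
        rw [Finsupp.add_apply, Finsupp.single_apply]
        split_ifs
        · have := Z.nn b
          linarith
        · have := Z.nn b
          linarith
      sum_one := by
        change tot _ = 1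
        rw [tot_add, tot_single]
        change Z.sum + (1 - Z.sum) = 1
        ring
      simp := pt_simp Z _ (by linarith) }
  else vrt Y v

theorem pt_x {v : V} {Z : Sec Y v} (h : Z.sum < 1) :
    (pt Z).x = Z.x + Finsupp.single v (1 - Z.sum) := by
  unfold pt
  rw [dif_pos h]

theorem pt_v {v : V} {Z : Sec Y v} (h : Z.sum < 1) : (pt Z).x v = 1 - Z.sum := by
  rw [pt_x h, Finsupp.add_apply, sec_v, Finsupp.single_eq_same, zero_add]

theorem sec_pt {v : V} {Z : Sec Y v} (h : Z.sum < 1) : sec v (pt Z) = Z := by
  classical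
  apply sec_ext
  rw [sec_x (by rw [pt_v h]; linarith), pt_x h]
  ext w
  rw [Finsupp.erase_apply, Finsupp.add_apply, Finsupp.single_apply]
  by_cases hw : w = v
  · subst hw
    rw [if_pos rfl, sec_v]
  · rw [if_neg hw, if_neg (fun h => hw h.symm), add_zero]

theorem pt_sec {v : V} {x : YPt Y} (h : 0 < x.x v) : pt (sec v x) = x := by
  apply ypt_ext
  have h1 : (sec v x).sum < 1 := by rw [sum_sec h]; linarith
  rw [pt_x h1, sum_sec h]
  conv_rhs => rw [x_eq h]
  congr 2
  ring

/-- the Euclidean distances agree -/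
theorem eD_pt (len : V → V → ℝ) {v : V} {X Z : Sec Y v} (hX : X.sum < 1) (hZ : Z.sum < 1) :
    YPt.eD len (pt X) (pt Z) = Sec.gD len X Z := by
  unfold YPt.eD Sec.gD
  congr 2
  rw [pt_x hX, pt_x hZ]
  have h1 : ((X.x - Z.x).sum fun _ r => r) = X.sum - Z.sum := tot_sub _ _
  rw [h1]
  have h2 : Finsupp.single v (X.sum - Z.sum) =
      Finsupp.single v (1 - Z.sum) - Finsupp.single v (1 - X.sum) := by
    rw [← Finsupp.single_sub]
    congr 1
    ring
  rw [h2]
  abel

theorem eD_sec (len : V → V → ℝ) {v : V} {x y : YPt Y} (hx : 0 < x.x v) (hy : 0 < y.x v) :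
    YPt.eD len x y = Sec.gD len (sec v x) (sec v y) := by
  have h1 : (sec v x).sum < 1 := by rw [sum_sec hx]; linarith
  have h2 : (sec v y).sum < 1 := by rw [sum_sec hy]; linarith
  have h := eD_pt len h1 h2
  rwa [pt_sec hx, pt_sec hy] at h

theorem gD_self (len : V → V → ℝ) {v : V} (X : Sec Y v) : Sec.gD len X X = 0 := by
  unfold Sec.gD
  rw [sub_self]
  simp [sqd]

/-- common simplices -/
theorem comm_sec {v : V} {x y : YPt Y} (h : x.Comm y) (hx : 0 < x.x v) (hy : 0 < y.x v) :
    (sec v x).Comm (sec v y) ∨ sec v x = sec v y := by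
  classical
  obtain ⟨σ, hσ, h1, h2⟩ := h
  have hv : v ∈ σ := h1 (ne_of_gt hx)
  have he : ∀ d, ((sec v x).x d ≠ 0 ∨ (sec v y).x d ≠ 0) → d ≠ v ∧ d ∈ σ := by
    intro d hd
    rw [sec_x hx, sec_x hy, Finsupp.erase_apply, Finsupp.erase_apply] at hd
    by_cases h' : d = v
    · rw [if_pos h', if_pos h'] at hd
      exact absurd rfl (hd.elim id id)
    · rw [if_neg h', if_neg h'] at hd
      exact ⟨h', hd.elim (fun h => h1 h) fun h => h2 h⟩
  rcases hσ with ⟨a, ha⟩ | ⟨a, b, hab, hs⟩ | ⟨a, b, c, habc, hs⟩
  · right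
    have h0 : ∀ d, ¬ ((sec v x).x d ≠ 0 ∨ (sec v y).x d ≠ 0) := by
      intro d hd
      obtain ⟨h3, h4⟩ := he d hd
      rw [ha] at h4 hv
      exact h3 (h4.trans hv.symm)
    apply sec_ext
    ext d
    have := h0 d
    push Not at this
    rw [this.1, this.2]
  · left; left
    rw [hs] at hv he
    rcases hv with rfl | hv
    · refine ⟨b, hab, fun d hd => ?_⟩
      obtain ⟨h1, h2 | h2⟩ := he d hd
      · exact absurd h2 h1
      · exact h2
    · rw [Set.mem_singleton_iff] at hv
      subst hv
      refine ⟨a, Y.edge_symm _ _ hab, fun d hd => ?_⟩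
      obtain ⟨h1, h2 | h2⟩ := he d hd
      · exact h2
      · exact absurd h2 h1
  · left; right
    rw [hs] at hv he
    rcases hv with rfl | hv | hv
    · refine ⟨b, c, habc, fun d hd => ?_⟩
      obtain ⟨h1, h2 | h2 | h2⟩ := he d hd
      · exact absurd h2 h1
      · exact Or.inl h2
      · exact Or.inr h2
    · subst hv
      refine ⟨a, c, Y.tri_swap _ _ _ habc, fun d hd => ?_⟩
      obtain ⟨h1, h2 | h2 | h2⟩ := he d hd
      · exact Or.inl h2
      · exact absurd h2 h1
      · exact Or.inr h2
    · rw [Set.mem_singleton_iff] at hv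
      subst hv
      refine ⟨a, b, Y.tri_rot _ _ _ (Y.tri_rot _ _ _ habc), fun d hd => ?_⟩
      obtain ⟨h1, h2 | h2 | h2⟩ := he d hd
      · exact Or.inl h2
      · exact Or.inr h2
      · exact absurd h2 h1

theorem comm_pt {v : V} {X Z : Sec Y v} (h : X.Comm Z) (hX : X.sum < 1) (hZ : Z.sum < 1) :
    (pt X).Comm (pt Z) := by
  classical
  have he : ∀ d, (pt X).x d ≠ 0 ∨ (pt Z).x d ≠ 0 → d = v ∨ X.x d ≠ 0 ∨ Z.x d ≠ 0 := by
    intro d hd
    by_cases h' : d = v
    · exact Or.inl h'
    · right
      rw [pt_x hX, pt_x hZ, Finsupp.add_apply, Finsupp.add_apply, Finsupp.single_apply,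
        Finsupp.single_apply, if_neg (fun h => h' h.symm), if_neg (fun h => h' h.symm), add_zero,
        add_zero] at hd
      exact hd
  rcases h with ⟨b, hb, h⟩ | ⟨b, c, hb, h⟩
  · refine ⟨{v, b}, Or.inr (Or.inl ⟨v, b, hb, rfl⟩), ?_, ?_⟩
    · intro d hd
      rcases he d (Or.inl hd) with h' | h'
      · exact Or.inl h'
      · exact Or.inr (h d h')
    · intro d hd
      rcases he d (Or.inr hd) with h' | h'
      · exact Or.inl h'
      · exact Or.inr (h d h')
  · refine ⟨{v, b, c}, Or.inr (Or.inr ⟨v, b, c, hb, rfl⟩), ?_, ?_⟩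
    · intro d hd
      rcases he d (Or.inl hd) with h' | h'
      · exact Or.inl h'
      · exact Or.inr (h d h')
    · intro d hd
      rcases he d (Or.inr hd) with h' | h'
      · exact Or.inl h'
      · exact Or.inr (h d h')

theorem comm_zsec {v : V} (X : Sec Y v) : X.Comm (zsec Y v) ∨ X = zsec Y v := by
  rcases X.simp with h | ⟨b, hb, h⟩ | ⟨b, c, hb, h⟩
  · right
    apply sec_ext
    ext d
    exact h d
  · left; left
    refine ⟨b, hb, fun d hd => ?_⟩
    rcases hd with hd | hd
    · exact h d hd
    · exact absurd rfl hd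
  · left; right
    refine ⟨b, c, hb, fun d hd => ?_⟩
    rcases hd with hd | hd
    · exact h d hd
    · exact absurd rfl hd

/-- some coordinate is at least `1/3` -/
theorem exists_coord (x : YPt Y) : ∃ v, 1 / 3 ≤ x.x v := by
  classical
  by_contra hcon
  push Not at hcon
  have key : ∀ s : Finset V, (∀ w, x.x w ≠ 0 → w ∈ s) → s.card ≤ 3 → False := by
    intro s hs hc
    have h1 : ∑ w ∈ s, x.x w = 1 := by
      rw [← x.sum_one]
      change _ = ∑ w ∈ x.x.support, x.x w
      symm
      apply Finset.sum_subset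
      · intro w hw
        exact hs w (Finsupp.mem_support_iff.1 hw)
      · intro w _ hw
        exact Finsupp.notMem_support_iff.1 hw
    have hne : s.Nonempty := by
      rw [Finset.nonempty_iff_ne_empty]
      rintro rfl
      simp at h1
    have h2 : ∑ w ∈ s, x.x w < ∑ w ∈ s, (1 / 3 : ℝ) :=
      Finset.sum_lt_sum_of_nonempty hne fun w _ => hcon w
    rw [h1, Finset.sum_const, nsmul_eq_mul] at h2
    have h3 : (s.card : ℝ) ≤ 3 := by exact_mod_cast hc
    linarith
  rcases x.simp with ⟨a, ha⟩ | ⟨a, b, hab, hs⟩ | ⟨a, b, c, habc, hs⟩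
  · refine key {a} (fun w hw => ?_) (by simp)
    have : w ∈ {w | x.x w ≠ 0} := hw
    rw [ha] at this
    simpa using this
  · refine key {a, b} (fun w hw => ?_) (Finset.card_le_two.trans (by norm_num))
    have : w ∈ {w | x.x w ≠ 0} := hw
    rw [hs] at this
    simpa using this
  · refine key {a, b, c} (fun w hw => ?_) Finset.card_le_three
    have : w ∈ {w | x.x w ≠ 0} := hw
    rw [hs] at this
    simpa using this

end Pool.Agent.helper60.FJ3
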